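import Mathlib

set_option autoImplicit false

namespace Pool.Agent.Helper53.GD

open Finset Matrix Polynomial

section

set_option linter.unusedSectionVars false

variable {q : ℕ} [NeZero q]

lemma val_sub (j l : Fin q) :
    ((j - l : Fin q) : ℕ) + l = j + q * (if l ≤ j then 0 else 1) := by
  split_ifs with h
  · have h1 := Fin.coe_sub_iff_le.2 h
    have h2 : (l : ℕ) ≤ j := h
    omega
  · have h' : j < l := not_le.1 h
    have h1 := Fin.coe_sub_iff_lt.2 h'
    have h2 : (j : ℕ) < l := h'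
    have h3 := l.isLt
    omega

/-- the matrix of the multiplication by `∑ w a X ^ a` modulo `X ^ q - τ` -/
def tw (w : Fin q → ℚ) (τ : ℚ) : Matrix (Fin q) (Fin q) ℚ :=
  fun j l => τ ^ (if l ≤ j then 0 else 1) * w (j - l)

lemma det_ne_zero (w : Fin q → ℚ) (τ : ℚ) (hirr : Irreducible (X ^ q - C τ : ℚ[X]))
    (hw : w ≠ 0) : (tw w τ).det ≠ 0 := by
  intro hdet
  obtain ⟨z, hz, hMz⟩ := Matrix.exists_mulVec_eq_zero_iff.2 hdet
  have hq : q ≠ 0 := NeZero.ne q
  have hfact : Fact (Irreducible (X ^ q - C τ : ℚ[X])) := ⟨hirr⟩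
  have hα : (AdjoinRoot.root (X ^ q - C τ : ℚ[X])) ^ q = AdjoinRoot.of (X ^ q - C τ : ℚ[X]) τ := by
    have h1 := AdjoinRoot.eval₂_root (X ^ q - C τ : ℚ[X])
    rw [eval₂_sub, eval₂_X_pow, eval₂_C, sub_eq_zero] at h1
    exact h1
  have hev : ∀ v : Fin q → ℚ, v ≠ 0 → (∑ a, AdjoinRoot.of (X ^ q - C τ : ℚ[X]) (v a) *
      (AdjoinRoot.root (X ^ q - C τ : ℚ[X])) ^ (a : ℕ)) ≠ 0 := by
    intro v hv h0
    have h1 : AdjoinRoot.mk (X ^ q - C τ : ℚ[X]) (∑ a : Fin q, C (v a) * X ^ (a : ℕ)) = 0 := by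
      rw [map_sum, ← h0]
      apply Finset.sum_congr rfl
      intro a _
      rw [map_mul, map_pow, AdjoinRoot.mk_C, AdjoinRoot.mk_X]
    rw [AdjoinRoot.mk_eq_zero] at h1
    have hp : (∑ a : Fin q, C (v a) * X ^ (a : ℕ) : ℚ[X]) ≠ 0 := by
      intro hp
      apply hv
      funext a
      have h2 := congrArg (fun p => coeff p (a : ℕ)) hp
      simp only [finsetSum_coeff, coeff_C_mul_X_pow, coeff_zero] at h2
      rw [Finset.sum_eq_single a] at h2
      · simpa using h2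
      · intro b _ hb
        rw [if_neg]
        intro h
        exact hb (Fin.ext h.symm)
      · intro h; exact absurd (Finset.mem_univ _) h
    have h3 := Polynomial.degree_le_of_dvd h1 hp
    rw [degree_X_pow_sub_C (Nat.pos_of_ne_zero hq)] at h3
    have h4 : (∑ a : Fin q, C (v a) * X ^ (a : ℕ) : ℚ[X]).degree < (q : WithBot ℕ) := by
      refine lt_of_le_of_lt (Polynomial.degree_sum_le _ _) ?_
      rw [Finset.sup_lt_iff (by exact WithBot.bot_lt_coe q)]
      intro a _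
      refine lt_of_le_of_lt (Polynomial.degree_C_mul_X_pow_le _ _) ?_
      exact_mod_cast a.isLt
    exact absurd (lt_of_le_of_lt h3 h4) (lt_irrefl _)
  have hid : ∀ l : Fin q, (∑ a, AdjoinRoot.of (X ^ q - C τ : ℚ[X]) (w a) *
      (AdjoinRoot.root (X ^ q - C τ : ℚ[X])) ^ (a : ℕ)) *
      (AdjoinRoot.root (X ^ q - C τ : ℚ[X])) ^ (l : ℕ) =
      ∑ j, AdjoinRoot.of (X ^ q - C τ : ℚ[X]) (tw w τ j l) *
        (AdjoinRoot.root (X ^ q - C τ : ℚ[X])) ^ (j : ℕ) := by
    intro l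
    rw [Finset.sum_mul, ← Equiv.sum_comp (Equiv.subRight l)]
    apply Finset.sum_congr rfl
    intro j _
    simp only [Equiv.subRight_apply, tw]
    rw [mul_assoc, ← pow_add, val_sub, pow_add, pow_mul, hα, map_mul, map_pow]
    ring
  have hz0 : (∑ a, AdjoinRoot.of (X ^ q - C τ : ℚ[X]) (w a) *
      (AdjoinRoot.root (X ^ q - C τ : ℚ[X])) ^ (a : ℕ)) *
      (∑ l, AdjoinRoot.of (X ^ q - C τ : ℚ[X]) (z l) *
        (AdjoinRoot.root (X ^ q - C τ : ℚ[X])) ^ (l : ℕ)) = 0 := by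
    rw [Finset.mul_sum]
    have h1 : ∀ l : Fin q, (∑ a, AdjoinRoot.of (X ^ q - C τ : ℚ[X]) (w a) *
        (AdjoinRoot.root (X ^ q - C τ : ℚ[X])) ^ (a : ℕ)) *
        (AdjoinRoot.of (X ^ q - C τ : ℚ[X]) (z l) *
        (AdjoinRoot.root (X ^ q - C τ : ℚ[X])) ^ (l : ℕ)) =
        ∑ j, AdjoinRoot.of (X ^ q - C τ : ℚ[X]) (tw w τ j l * z l) *
        (AdjoinRoot.root (X ^ q - C τ : ℚ[X])) ^ (j : ℕ) := by
      intro l
      have h2 := hid l
      calc _ = AdjoinRoot.of (X ^ q - C τ : ℚ[X]) (z l) *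
            ((∑ a, AdjoinRoot.of (X ^ q - C τ : ℚ[X]) (w a) *
            (AdjoinRoot.root (X ^ q - C τ : ℚ[X])) ^ (a : ℕ)) *
            (AdjoinRoot.root (X ^ q - C τ : ℚ[X])) ^ (l : ℕ)) := by ring
        _ = _ := by
          rw [h2, Finset.mul_sum]
          apply Finset.sum_congr rfl
          intro j _
          rw [map_mul]; ring
    rw [Finset.sum_congr rfl (fun l _ => h1 l), Finset.sum_comm]
    apply Finset.sum_eq_zero
    intro j _
    rw [← Finset.sum_mul, ← map_sum]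
    have h3 := congrFun hMz j
    simp only [Matrix.mulVec, dotProduct, Pi.zero_apply] at h3
    rw [h3, map_zero, zero_mul]
  rcases mul_eq_zero.1 hz0 with h | h
  · exact hev w hw h
  · exact hev z hz h

/-- a bound for determinants -/
lemma det_bound (A : Matrix (Fin q) (Fin q) ℝ) (B : Fin q → Fin q → ℝ) (t : Fin q → ℝ)
    (hB : ∀ j l, 0 ≤ B j l) (ht : ∀ j, 0 < t j) (h : ∀ j l, |A j l| ≤ B j l * (t j / t l)) :
    |A.det| ≤ ∏ l, ∑ j, B j l := by
  classical
  rw [Matrix.det_apply]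
  refine (Finset.abs_sum_le_sum_abs _ _).trans ?_
  have h1 : ∀ σ : Equiv.Perm (Fin q), |Equiv.Perm.sign σ • ∏ i, A (σ i) i| ≤ ∏ i, B (σ i) i := by
    intro σ
    have h2 : |Equiv.Perm.sign σ • ∏ i, A (σ i) i| = ∏ i, |A (σ i) i| := by
      rcases Int.units_eq_one_or (Equiv.Perm.sign σ) with hs | hs
      · rw [hs, one_smul, Finset.abs_prod]
      · rw [hs]
        simp only [Units.neg_smul, one_smul, abs_neg]
        rw [Finset.abs_prod]
    rw [h2]
    calc ∏ i, |A (σ i) i| ≤ ∏ i, (B (σ i) i * (t (σ i) / t i)) :=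
          Finset.prod_le_prod (fun i _ => abs_nonneg _) (fun i _ => h _ _)
      _ = (∏ i, B (σ i) i) * ((∏ i, t (σ i)) / ∏ i, t i) := by
          rw [Finset.prod_mul_distrib, Finset.prod_div_distrib]
      _ = ∏ i, B (σ i) i := by
          rw [Equiv.prod_comp σ t, div_self, mul_one]
          exact (Finset.prod_pos (fun i _ => ht i)).ne'
  refine (Finset.sum_le_sum (fun σ _ => h1 σ)).trans ?_
  rw [Finset.prod_univ_sum]
  have hinj : Function.Injective (fun σ : Equiv.Perm (Fin q) => (σ : Fin q → Fin q)) :=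
    DFunLike.coe_injective
  calc ∑ σ : Equiv.Perm (Fin q), ∏ i, B (σ i) i
      = ∑ g ∈ (Finset.univ : Finset (Equiv.Perm (Fin q))).image
          (fun σ : Equiv.Perm (Fin q) => (σ : Fin q → Fin q)), ∏ i, B (g i) i := by
        rw [Finset.sum_image (fun a _ b _ hab => hinj hab)]
    _ ≤ _ := by
        apply Finset.sum_le_sum_of_subset_of_nonneg
        · intro g _
          simp
        · intro g _ _
          exact Finset.prod_nonneg (fun i _ => hB _ _)

/-- the twisted determinant is an integer -/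
lemma det_int {b n : ℕ} (hb : 2 ≤ b) (ε : ℤ) (m : Fin q → ℕ) (w' : Fin q → ℤ)
    (hm : ∀ a : Fin q, n * (a : ℕ) ≤ q * m a) :
    ∃ D : ℤ, (D : ℚ) =
      (tw (fun a => ((w' a * (b : ℤ) ^ (m a) : ℤ) : ℚ)) ((ε : ℚ) / (b : ℚ) ^ n)).det := by
  classical
  have hb0 : (b : ℚ) ≠ 0 := by exact_mod_cast (by omega : b ≠ 0)
  have key : ∀ σ : Equiv.Perm (Fin q), ∃ D : ℤ, (D : ℚ) =
      ∏ i, tw (fun a => ((w' a * (b : ℤ) ^ (m a) : ℤ) : ℚ)) ((ε : ℚ) / (b : ℚ) ^ n) (σ i) i := by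
    intro σ
    have hsum : ∑ i, ((σ i - i : Fin q) : ℕ) = q * ∑ i, (if i ≤ σ i then 0 else 1) := by
      have h1 : ∑ i, (((σ i - i : Fin q) : ℕ) + (i : ℕ)) =
          ∑ i, (((σ i : Fin q) : ℕ) + q * (if i ≤ σ i then 0 else 1)) :=
        Finset.sum_congr rfl (fun i _ => val_sub (σ i) i)
      rw [Finset.sum_add_distrib, Finset.sum_add_distrib,
        Equiv.sum_comp σ (fun j : Fin q => (j : ℕ)), ← Finset.mul_sum] at h1
      omega
    have hexp : n * ∑ i, (if i ≤ σ i then 0 else 1) ≤ ∑ i, m (σ i - i) := by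
      have h1 : q * (n * ∑ i, (if i ≤ σ i then 0 else 1)) ≤ q * ∑ i, m (σ i - i) := by
        calc q * (n * ∑ i, (if i ≤ σ i then 0 else 1)) = n * (q * ∑ i, (if i ≤ σ i then 0 else 1)) := by
              ring
          _ = ∑ i, n * ((σ i - i : Fin q) : ℕ) := by rw [← hsum, Finset.mul_sum]
          _ ≤ ∑ i, q * m (σ i - i) := Finset.sum_le_sum (fun i _ => hm _)
          _ = _ := by rw [← Finset.mul_sum]
      exact Nat.le_of_mul_le_mul_left h1 (Nat.pos_of_ne_zero (NeZero.ne q))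
    refine ⟨ε ^ (∑ i, (if i ≤ σ i then 0 else 1)) * (∏ i, w' (σ i - i)) *
      (b : ℤ) ^ (∑ i, m (σ i - i) - n * ∑ i, (if i ≤ σ i then 0 else 1)), ?_⟩
    simp only [tw]
    rw [Finset.prod_mul_distrib, Finset.prod_pow_eq_pow_sum]
    push_cast
    rw [Finset.prod_mul_distrib, Finset.prod_pow_eq_pow_sum, div_pow, ← pow_mul]
    rw [pow_sub₀ _ hb0 hexp]
    field_simp
  choose D hD using key
  refine ⟨∑ σ : Equiv.Perm (Fin q), ((Equiv.Perm.sign σ : ℤˣ) : ℤ) * D σ, ?_⟩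
  rw [Matrix.det_apply', Int.cast_sum]
  apply Finset.sum_congr rfl
  intro σ _
  rw [Int.cast_mul, hD]

/-- divisibility of the twisted determinant -/
lemma det_dvd {b n : ℕ} (hb : 2 ≤ b) {ε : ℤ} {W : Fin q → ℤ} {D x : ℤ}
    (hD : (D : ℚ) = (tw (fun a => ((W a : ℤ) : ℚ)) ((ε : ℚ) / (b : ℚ) ^ n)).det)
    (hx : x ∣ (b : ℤ) ^ n - ε) (hcop : IsCoprime x (b : ℤ)) (hxW : x ∣ ∑ a, W a) : x ∣ D := by
  classical
  have hb0 : (b : ℚ) ≠ 0 := by exact_mod_cast (by omega : b ≠ 0)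
  let A : Matrix (Fin q) (Fin q) ℤ := fun j l => (if l ≤ j then (b : ℤ) ^ n else ε) * W (j - l)
  have hA : (A.det : ℚ) = (b : ℚ) ^ (n * q) * D := by
    have h1 : (A.det : ℚ) = (A.map (Int.castRingHom ℚ)).det := by
      have h := RingHom.map_det (Int.castRingHom ℚ) A
      exact h
    have h2 : A.map (Int.castRingHom ℚ) =
        ((b : ℚ) ^ n) • tw (fun a => ((W a : ℤ) : ℚ)) ((ε : ℚ) / (b : ℚ) ^ n) := by
      ext j l
      have h3 : (A.map (Int.castRingHom ℚ)) j l = ((A j l : ℤ) : ℚ) := rfl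
      rw [h3, Matrix.smul_apply, smul_eq_mul]
      simp only [A, tw]
      split_ifs
      · push_cast; simp
      · push_cast; rw [pow_one]; field_simp
    rw [h1, h2, Matrix.det_smul, Fintype.card_fin, ← hD, ← pow_mul]
  have hA' : A.det = (b : ℤ) ^ (n * q) * D := by exact_mod_cast hA
  have hrow : ∀ j, ∃ c : ℤ, (A *ᵥ (fun _ => 1)) j = x * c := by
    intro j
    have h1 : (A *ᵥ (fun _ => 1)) j = ∑ l, A j l := by
      simp [Matrix.mulVec, dotProduct]
    have h2 : ∑ l, A j l = ε * ∑ a, W a + ∑ l, (if l ≤ j then ((b : ℤ) ^ n - ε) else 0) * W (j - l) := by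
      have h3 : ∑ a, W a = ∑ l, W (j - l) := by
        rw [← Equiv.sum_comp (Equiv.subLeft j)]
        rfl
      rw [h3, Finset.mul_sum, ← Finset.sum_add_distrib]
      apply Finset.sum_congr rfl
      intro l _
      simp only [A]
      split_ifs <;> ring
    rw [h1, h2]
    have h4 : x ∣ ε * ∑ a, W a + ∑ l, (if l ≤ j then ((b : ℤ) ^ n - ε) else 0) * W (j - l) := by
      apply dvd_add (Dvd.dvd.mul_left hxW _)
      apply Finset.dvd_sum
      intro l _
      split_ifs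
      · exact Dvd.dvd.mul_right hx _
      · simp
    exact h4
  choose c hc using hrow
  have hdet : x ∣ A.det := by
    have h1 : A.adjugate *ᵥ (A *ᵥ (fun _ => 1)) = fun _ => A.det := by
      rw [Matrix.mulVec_mulVec, Matrix.adjugate_mul]
      ext j
      simp [Matrix.mulVec, dotProduct, Matrix.smul_apply, Matrix.one_apply]
    have h2 : A *ᵥ (fun _ => 1) = x • c := by
      funext j
      rw [hc j]; simp
    rw [h2, Matrix.mulVec_smul] at h1
    have h3 := congrFun h1 (0 : Fin q)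
    simp only [Pi.smul_apply, smul_eq_mul] at h3
    exact ⟨_, h3.symm⟩
  rw [hA'] at hdet
  exact (IsCoprime.pow_right hcop).dvd_of_dvd_mul_left hdet

end

end Pool.Agent.Helper53.GD
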