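import Mathlib
import Pool.Agent.Helper53.GD.Det

set_option autoImplicit false

namespace Pool.Agent.Helper53.GD

open Finset Matrix Polynomial

/-- the size of the twisted determinant -/
lemma det_size {q b n r : ℕ} [NeZero q] (hb : 2 ≤ b) {ε : ℤ} (hε : |(ε : ℝ)| = 1) (W : Fin q → ℤ)
    (K : Fin q → ℝ) (hK : ∀ a, 0 ≤ K a)
    (hW : ∀ a, |(W a : ℝ)| ≤ K a * (((b : ℝ) ^ ((n : ℝ) / q)) ^ (a : ℕ) * (b : ℝ) ^ ((r : ℝ) / q)))
    {D : ℤ} (hD : (D : ℚ) = (tw (fun a => ((W a : ℤ) : ℚ)) ((ε : ℚ) / (b : ℚ) ^ n)).det) :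
    |(D : ℝ)| ≤ (∑ a, K a) ^ q * (b : ℝ) ^ r := by
  classical
  have hq : q ≠ 0 := NeZero.ne q
  have hqr : (q : ℝ) ≠ 0 := by exact_mod_cast hq
  have hb0 : (0 : ℝ) < b := by exact_mod_cast (by omega : 0 < b)
  set β : ℝ := (b : ℝ) ^ ((n : ℝ) / q) with hβdef
  set ρ : ℝ := (b : ℝ) ^ ((r : ℝ) / q) with hρdef
  have hβ : 0 < β := Real.rpow_pos_of_pos hb0 _
  have hρ : 0 < ρ := Real.rpow_pos_of_pos hb0 _
  have hβq : β ^ q = (b : ℝ) ^ n := by
    rw [hβdef, ← Real.rpow_natCast, ← Real.rpow_mul hb0.le, div_mul_cancel₀ _ hqr, Real.rpow_natCast]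
  have hρq : ρ ^ q = (b : ℝ) ^ r := by
    rw [hρdef, ← Real.rpow_natCast, ← Real.rpow_mul hb0.le, div_mul_cancel₀ _ hqr, Real.rpow_natCast]
  let A : Matrix (Fin q) (Fin q) ℝ :=
    (tw (fun a => ((W a : ℤ) : ℚ)) ((ε : ℚ) / (b : ℚ) ^ n)).map (Rat.castHom ℝ)
  have hA : A.det = (D : ℝ) := by
    have h1 := RingHom.map_det (Rat.castHom ℝ) (tw (fun a => ((W a : ℤ) : ℚ)) ((ε : ℚ) / (b : ℚ) ^ n))
    have h2 : A.det = ((Rat.castHom ℝ) (D : ℚ)) := by rw [hD, h1]; rfl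
    rw [h2]; simp
  have hent : ∀ j l : Fin q, |A j l| ≤ (K (j - l) * ρ) * (β ^ (j : ℕ) / β ^ (l : ℕ)) := by
    intro j l
    have h1 : A j l = ((ε : ℝ) / (b : ℝ) ^ n) ^ (if l ≤ j then 0 else 1) * (W (j - l) : ℝ) := by
      have h2 : A j l = ((tw (fun a => ((W a : ℤ) : ℚ)) ((ε : ℚ) / (b : ℚ) ^ n) j l : ℚ) : ℝ) := rfl
      rw [h2]
      simp only [tw]
      push_cast
      rfl
    rw [h1, abs_mul, abs_pow, abs_div, hε, abs_of_pos (by positivity : (0 : ℝ) < (b : ℝ) ^ n), ← hβq]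
    have h3 : β ^ ((j - l : Fin q) : ℕ) * β ^ (l : ℕ) =
        β ^ (j : ℕ) * (β ^ q) ^ (if l ≤ j then 0 else 1) := by
      rw [← pow_add, val_sub, pow_add, pow_mul]
    have h4 : (1 / β ^ q) ^ (if l ≤ j then 0 else 1) * β ^ ((j - l : Fin q) : ℕ) =
        β ^ (j : ℕ) / β ^ (l : ℕ) := by
      rw [eq_div_iff (by positivity), mul_assoc, h3, one_div, inv_pow]
      field_simp
    calc (1 / β ^ q) ^ (if l ≤ j then 0 else 1) * |(W (j - l) : ℝ)|
        ≤ (1 / β ^ q) ^ (if l ≤ j then 0 else 1) * (K (j - l) * (β ^ ((j - l : Fin q) : ℕ) * ρ)) :=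
          mul_le_mul_of_nonneg_left (hW _) (by positivity)
      _ = (K (j - l) * ρ) * ((1 / β ^ q) ^ (if l ≤ j then 0 else 1) * β ^ ((j - l : Fin q) : ℕ)) := by
          ring
      _ = _ := by rw [h4]
  have h5 := det_bound A (fun j l => K (j - l) * ρ) (fun j => β ^ (j : ℕ))
    (fun j l => mul_nonneg (hK _) hρ.le) (fun j => by positivity) hent
  rw [hA] at h5
  refine h5.trans (le_of_eq ?_)
  have h6 : ∀ l : Fin q, ∑ j, K (j - l) * ρ = (∑ a, K a) * ρ := by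
    intro l
    rw [← Finset.sum_mul]
    congr 1
    exact Equiv.sum_comp (Equiv.subRight l) K
  rw [Finset.prod_congr rfl (fun l _ => h6 l), Finset.prod_const, Finset.card_univ, Fintype.card_fin,
    mul_pow, hρq]

/-- **The core.** -/
theorem core {b n q r : ℕ} (hb : 2 ≤ b) (hq : 1 ≤ q) {ε : ℤ} (hε : ε = 1 ∨ ε = -1)
    (hirr : Irreducible (X ^ q - C ((ε : ℚ) / (b : ℚ) ^ n) : ℚ[X]))
    {ι : Type} (s : Finset ι) (c : ι → ℤ) (e α : ι → ℕ)
    (h1 : ∀ i ∈ s, n * α i ≤ q * e i) (h2 : ∀ i ∈ s, q * e i ≤ n * α i + r)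
    {x : ℤ} (hx : x ∣ (b : ℤ) ^ n - ε) (hcop : IsCoprime x (b : ℤ))
    (hxz : x ∣ ∑ i ∈ s, c i * (b : ℤ) ^ (e i)) :
    ((b : ℤ) ^ n - ε) ∣ ∑ i ∈ s, c i * (b : ℤ) ^ (e i) ∨
      |x| ≤ (∑ i ∈ s, |c i|) ^ q * (b : ℤ) ^ r := by
  classical
  have hne : NeZero q := ⟨by omega⟩
  have hqr : (q : ℝ) ≠ 0 := by exact_mod_cast (by omega : q ≠ 0)
  have hb0 : (0 : ℝ) < b := by exact_mod_cast (by omega : 0 < b)
  -- the reduced exponents
  have hκ : ∀ i ∈ s, n * (α i / q) ≤ e i := by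
    intro i hi
    have h3 := h1 i hi
    have h4 : q * (α i / q) ≤ α i := Nat.mul_div_le _ _
    have h5 : q * (n * (α i / q)) ≤ q * e i := by
      calc q * (n * (α i / q)) = n * (q * (α i / q)) := by ring
        _ ≤ n * α i := Nat.mul_le_mul_left _ h4
        _ ≤ q * e i := h3
    exact Nat.le_of_mul_le_mul_left h5 (by omega)
  let E : ι → ℕ := fun i => e i - n * (α i / q)
  have hE : ∀ i ∈ s, q * E i + n * (q * (α i / q)) = q * e i := by
    intro i hi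
    have h3 := hκ i hi
    simp only [E]
    have h4 : q * (e i - n * (α i / q)) + q * (n * (α i / q)) = q * e i := by
      rw [← Nat.mul_add, Nat.sub_add_cancel h3]
    calc _ = q * (e i - n * (α i / q)) + q * (n * (α i / q)) := by ring
      _ = _ := h4
  have hmod : ∀ i, n * α i = n * (α i % q) + n * (q * (α i / q)) := by
    intro i
    rw [← Nat.mul_add, Nat.mod_add_div]
  have hElow : ∀ i ∈ s, n * (α i % q) ≤ q * E i := by
    intro i hi
    have h3 := h1 i hi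
    have h4 := hE i hi
    have h5 := hmod i
    omega
  have hEup : ∀ i ∈ s, q * E i ≤ n * (α i % q) + r := by
    intro i hi
    have h3 := h2 i hi
    have h4 := hE i hi
    have h5 := hmod i
    omega
  let m : Fin q → ℕ := fun a => (n * (a : ℕ) + q - 1) / q
  have hm : ∀ a : Fin q, n * (a : ℕ) ≤ q * m a := by
    intro a
    simp only [m]
    have h3 := Nat.div_add_mod (n * (a : ℕ) + q - 1) q
    have h4 := Nat.mod_lt (n * (a : ℕ) + q - 1) (by omega : q > 0)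
    omega
  have hmE : ∀ i ∈ s, ∀ a : Fin q, α i % q = a → m a ≤ E i := by
    intro i hi a ha
    have h3 := hElow i hi
    rw [ha] at h3
    simp only [m]
    apply Nat.le_of_lt_succ
    rw [Nat.div_lt_iff_lt_mul (by omega)]
    have h4 : (E i).succ * q = q * E i + q := by rw [Nat.succ_mul, Nat.mul_comm]
    rw [h4]
    omega
  let w' : Fin q → ℤ := fun a => ∑ i ∈ s.filter (fun i => α i % q = a),
    c i * ε ^ (α i / q) * (b : ℤ) ^ (E i - m a)
  let W : Fin q → ℤ := fun a => w' a * (b : ℤ) ^ (m a)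
  have hWsum : ∀ a, W a = ∑ i ∈ s.filter (fun i => α i % q = a),
      c i * ε ^ (α i / q) * (b : ℤ) ^ (E i) := by
    intro a
    simp only [W, w']
    rw [Finset.sum_mul]
    apply Finset.sum_congr rfl
    intro i hi
    rw [Finset.mem_filter] at hi
    have h3 := hmE i hi.1 a hi.2
    rw [mul_assoc, ← pow_add, Nat.sub_add_cancel h3]
  have hfib : ∀ g : ι → ℤ, ∑ a : Fin q, ∑ i ∈ s.filter (fun i => α i % q = a), g i = ∑ i ∈ s, g i := by
    intro g
    have h3 : ∀ a : Fin q, s.filter (fun i => α i % q = a) =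
        s.filter (fun i => (⟨α i % q, Nat.mod_lt _ (by omega)⟩ : Fin q) = a) := by
      intro a
      apply Finset.filter_congr
      intro i _
      rw [Fin.ext_iff]
    rw [Finset.sum_congr rfl (fun a _ => by rw [h3 a])]
    exact Finset.sum_fiberwise s (fun i => (⟨α i % q, Nat.mod_lt _ (by omega)⟩ : Fin q)) g
  have hWtot : ∑ a, W a = ∑ i ∈ s, c i * ε ^ (α i / q) * (b : ℤ) ^ (E i) := by
    rw [Finset.sum_congr rfl (fun a _ => hWsum a), hfib]
  have hdiff : ((b : ℤ) ^ n - ε) ∣ ∑ i ∈ s, c i * (b : ℤ) ^ (e i) - ∑ a, W a := by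
    rw [hWtot, ← Finset.sum_sub_distrib]
    apply Finset.dvd_sum
    intro i hi
    have h3 : (b : ℤ) ^ (e i) = (b : ℤ) ^ (E i) * ((b : ℤ) ^ n) ^ (α i / q) := by
      rw [← pow_mul, ← pow_add]
      congr 1
      have := hκ i hi
      simp only [E]
      omega
    have h4 : c i * (b : ℤ) ^ (e i) - c i * ε ^ (α i / q) * (b : ℤ) ^ (E i) =
        c i * (b : ℤ) ^ (E i) * (((b : ℤ) ^ n) ^ (α i / q) - ε ^ (α i / q)) := by
      rw [h3]; ring
    rw [h4]
    exact Dvd.dvd.mul_left (sub_dvd_pow_sub_pow _ _ _) _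
  by_cases hw0 : W = 0
  · left
    rw [hw0] at hdiff
    simpa using hdiff
  right
  obtain ⟨D, hD⟩ := det_int hb ε m w' hm (n := n)
  have hDW : (D : ℚ) = (tw (fun a => ((W a : ℤ) : ℚ)) ((ε : ℚ) / (b : ℚ) ^ n)).det := hD
  have hxW : x ∣ ∑ a, W a := by
    have h3 := (hx.trans hdiff)
    exact (dvd_sub_right hxz).1 h3
  have hxD : x ∣ D := det_dvd hb hDW hx hcop hxW
  have hD0 : D ≠ 0 := by
    intro h0
    rw [h0] at hDW
    have h3 := det_ne_zero (fun a => ((W a : ℤ) : ℚ)) ((ε : ℚ) / (b : ℚ) ^ n) hirr (by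
      intro h4
      apply hw0
      funext a
      have h5 := congrFun h4 a
      simpa using h5)
    apply h3
    rw [← hDW]; simp
  have hε1 : |(ε : ℝ)| = 1 := by
    rcases hε with h | h <;> rw [h] <;> simp
  have hsize : |(D : ℝ)| ≤ (∑ a : Fin q, ∑ i ∈ s.filter (fun i => α i % q = a), (|c i| : ℝ)) ^ q *
      (b : ℝ) ^ r := by
    apply det_size hb hε1 W _ _ _ hDW
    · intro a
      exact Finset.sum_nonneg (fun i _ => abs_nonneg _)
    · intro a
      rw [hWsum a]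
      push_cast
      rw [Finset.sum_mul]
      refine (Finset.abs_sum_le_sum_abs _ _).trans (Finset.sum_le_sum ?_)
      intro i hi
      rw [Finset.mem_filter] at hi
      rw [abs_mul, abs_mul, abs_pow, hε1, one_pow, mul_one]
      apply mul_le_mul_of_nonneg_left _ (abs_nonneg _)
      rw [abs_of_pos (by positivity)]
      have h3 := hEup i hi.1
      rw [hi.2] at h3
      have h4 : ((b : ℝ) ^ (E i)) ^ q ≤
          (((b : ℝ) ^ ((n : ℝ) / q)) ^ (a : ℕ) * (b : ℝ) ^ ((r : ℝ) / q)) ^ q := by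
        have e1 : (((b : ℝ) ^ ((n : ℝ) / q)) ^ (a : ℕ) * (b : ℝ) ^ ((r : ℝ) / q)) ^ q =
            (b : ℝ) ^ (n * (a : ℕ) + r) := by
          rw [mul_pow, ← pow_mul, mul_comm (a : ℕ) q, pow_mul]
          have e2 : ((b : ℝ) ^ ((n : ℝ) / q)) ^ q = (b : ℝ) ^ n := by
            rw [← Real.rpow_natCast, ← Real.rpow_mul hb0.le, div_mul_cancel₀ _ hqr,
              Real.rpow_natCast]
          have e3 : ((b : ℝ) ^ ((r : ℝ) / q)) ^ q = (b : ℝ) ^ r := by
            rw [← Real.rpow_natCast, ← Real.rpow_mul hb0.le, div_mul_cancel₀ _ hqr,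
              Real.rpow_natCast]
          rw [e2, e3, ← pow_mul, ← pow_add]
        rw [e1, ← pow_mul]
        apply pow_le_pow_right₀ (by exact_mod_cast (by omega : 1 ≤ b))
        rw [mul_comm]
        exact h3
      exact (pow_le_pow_iff_left₀ (by positivity) (by positivity) (by omega)).1 h4
  have hKsum : (∑ a : Fin q, ∑ i ∈ s.filter (fun i => α i % q = a), (|c i| : ℝ)) =
      ((∑ i ∈ s, |c i| : ℤ) : ℝ) := by
    rw [← hfib (fun i => |c i|)]
    push_cast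
    rfl
  rw [hKsum] at hsize
  have hsize2 : |D| ≤ (∑ i ∈ s, |c i|) ^ q * (b : ℤ) ^ r := by
    have h3 : ((|D| : ℤ) : ℝ) ≤ (((∑ i ∈ s, |c i|) ^ q * (b : ℤ) ^ r : ℤ) : ℝ) := by
      push_cast
      push_cast at hsize
      exact hsize
    exact_mod_cast h3
  have h4 : |x| ≤ |D| := Int.le_of_dvd (abs_pos.2 hD0) ((abs_dvd_abs x D).2 hxD)
  exact h4.trans hsize2

end Pool.Agent.Helper53.GD
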