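import Mathlib
import Pool.Agent.Helper53.FF.Irr
import Pool.Agent.Helper53.FF.IrrB

set_option autoImplicit false

namespace Pool.Agent.Helper53.GD

open Polynomial IntermediateField Pool.Agent.Helper53.FF

/-- `X ^ (2 ^ s) - a` is irreducible if `a` and `-a` are no squares -/
theorem irr_two {K : Type} [Field K] {a : K} (h1 : ∀ r : K, r ^ 2 ≠ a) (h2 : ∀ r : K, r ^ 2 ≠ -a)
    (s : ℕ) : Irreducible (X ^ (2 ^ s) - C a : K[X]) := by
  induction s with
  | zero =>
    rw [pow_zero, pow_one]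
    exact irreducible_X_sub_C a
  | succ s ih =>
    rw [pow_succ, mul_comm]
    apply X_pow_mul_sub_C_irreducible ih
    intro E _ _ x hx
    have hint : IsIntegral K x := not_not.mp fun h ↦ by
      have h4 := congr_arg degree (hx.symm.trans (dif_neg h))
      rw [degree_X_pow_sub_C (by positivity), degree_zero] at h4
      exact WithBot.natCast_ne_bot _ h4
    apply X_pow_sub_C_irreducible_of_prime Nat.prime_two
    intro b hb
    have hnorm : (Algebra.norm K b) ^ 2 = (-1) ^ (2 ^ s) * (-a) := by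
      rw [← map_pow, hb, ← adjoin.powerBasis_gen hint,
        Algebra.PowerBasis.norm_gen_eq_coeff_zero_minpoly]
      have hdeg : (adjoin.powerBasis hint).dim = 2 ^ s := by
        rw [adjoin.powerBasis_dim, hx, natDegree_X_pow_sub_C]
      rw [hdeg, adjoin.powerBasis_gen, minpoly_gen, hx]
      have h0 : (0 : ℕ) ≠ 2 ^ s := (pow_pos (by norm_num) s).ne
      rw [coeff_sub, coeff_X_pow, if_neg h0, coeff_C_zero, zero_sub]
    rcases Nat.eq_zero_or_pos s with hs | hs
    · subst hs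
      apply h1 (Algebra.norm K b)
      rw [hnorm]; simp
    · apply h2 (Algebra.norm K b)
      rw [hnorm, Even.neg_one_pow]
      · ring
      · exact (Nat.even_pow.2 ⟨even_two, by omega⟩)

/-- a rational number whose `p`-th power is `± b ^ (- n)` -/
lemma no_root {b n p : ℕ} (hb : 2 ≤ b) (hpow : ∀ c : ℕ, c ^ p ≠ b) (hp : p ≠ 0)
    (hpn : p.Coprime n) {r a : ℚ} (ha : |a| = 1 / (b : ℚ) ^ n) (h : r ^ p = a) : False := by
  have hbpos : (0 : ℚ) < b := by exact_mod_cast (by omega : 0 < b)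
  have h6 : |r| ^ p = 1 / (b : ℚ) ^ n := by rw [← abs_pow, h, ha]
  have h7 : (|r|⁻¹) ^ p = (b : ℚ) ^ n := by
    rw [inv_pow, h6, one_div, inv_inv]
  obtain ⟨c, hc⟩ := pow_of_pow hp hpn (by positivity) h7
  exact hpow c hc

/-- `X ^ q - ε b ^ (- n)` is irreducible, if `b` is not a perfect power and no prime divides both
`q` and `n` -/
theorem irr_nonpower {b n q : ℕ} (hb : 2 ≤ b) (hpow : ∀ p : ℕ, p.Prime → ∀ c : ℕ, c ^ p ≠ b)
    (hq : 1 ≤ q) (hcop : ∀ p : ℕ, p.Prime → p ∣ q → ¬ p ∣ n) {ε : ℤ} (hε : ε = 1 ∨ ε = -1) :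
    Irreducible (X ^ q - C ((ε : ℚ) / (b : ℚ) ^ n) : ℚ[X]) := by
  have hbpos : (0 : ℚ) < b := by exact_mod_cast (by omega : 0 < b)
  have habs : |(ε : ℚ) / (b : ℚ) ^ n| = 1 / (b : ℚ) ^ n := by
    rw [abs_div, abs_of_pos (by positivity : (0 : ℚ) < (b : ℚ) ^ n)]
    rcases hε with h | h <;> rw [h] <;> simp
  obtain ⟨s, w, hw, rfl⟩ := Nat.exists_eq_two_pow_mul_odd (by omega : q ≠ 0)
  have hnr : ∀ p : ℕ, p.Prime → p ∣ 2 ^ s * w → ∀ (r a : ℚ), |a| = 1 / (b : ℚ) ^ n → r ^ p ≠ a := by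
    intro p hp hpd r a ha h
    exact no_root hb (hpow p hp) hp.ne_zero ((Nat.Prime.coprime_iff_not_dvd hp).2 (hcop p hp hpd)) ha h
  have h3 : Irreducible (X ^ (2 ^ s) - C ((ε : ℚ) / (b : ℚ) ^ n) : ℚ[X]) := by
    rcases Nat.eq_zero_or_pos s with hs | hs
    · subst hs
      rw [pow_zero, pow_one]
      exact irreducible_X_sub_C _
    · have h2 : 2 ∣ 2 ^ s * w := Dvd.dvd.mul_right (dvd_pow_self 2 (by omega)) w
      apply irr_two
      · intro r
        exact hnr 2 Nat.prime_two h2 r _ habs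
      · intro r
        exact hnr 2 Nat.prime_two h2 r _ (by rw [abs_neg]; exact habs)
  rw [mul_comm]
  apply irr_odd (by positivity) h3 hw
  intro p hp hpw r
  apply hnr p hp (Dvd.dvd.mul_left hpw _) r
  rw [abs_mul, abs_neg, abs_pow, abs_neg, abs_one, one_pow, one_mul]
  exact habs

end Pool.Agent.Helper53.GD
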