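import Mathlib
import Pool.Agent.Helper53.CD.Defs
import Pool.Agent.Helper53.GD.Core
import Pool.Agent.Helper53.GD.Irr

set_option autoImplicit false

namespace Pool.Agent.Helper53.GD

open Finset Polynomial Pool.Agent.Helper53.CD

/-- **Simultaneous approximation** (Dirichlet) in integers. -/
theorem dirichletN (U : Finset ℕ) {n N : ℕ} (hn : 1 ≤ n) (hN : 1 ≤ N) :
    ∃ (q : ℕ) (α : ℕ → ℕ), 1 ≤ q ∧ q ≤ N ^ U.card ∧
      ∀ i ∈ U, |(N : ℤ) * ((q : ℤ) * i - n * α i)| < n := by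
  classical
  let f : ℕ → (U → Fin N) := fun q i => ⟨N * ((q * i) % n) / n, by
    rw [Nat.div_lt_iff_lt_mul (by omega)]
    have h1 := Nat.mod_lt (q * i) (by omega : n > 0)
    exact Nat.mul_lt_mul_of_pos_left h1 (by omega)⟩
  have hcard : Fintype.card (U → Fin N) < (Finset.range (N ^ U.card + 1)).card := by
    rw [Finset.card_range]
    simp
  obtain ⟨q₁, hq₁, q₂, hq₂, hne, hf⟩ := Finset.exists_ne_map_eq_of_card_lt_of_maps_to
    (s := Finset.range (N ^ U.card + 1)) (t := (Finset.univ : Finset (U → Fin N)))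
    (by rw [Finset.card_univ]; exact hcard) (f := f) (fun _ _ => Finset.mem_univ _)
  wlog hlt : q₁ < q₂ generalizing q₁ q₂
  · exact this q₂ hq₂ q₁ hq₁ (Ne.symm hne) hf.symm (by omega)
  rw [Finset.mem_range] at hq₁ hq₂
  refine ⟨q₂ - q₁, fun i => (q₂ * i) / n - (q₁ * i) / n, by omega, by omega, ?_⟩
  intro i hi
  have h1 := congrFun hf ⟨i, hi⟩
  have h2 : N * ((q₁ * i) % n) / n = N * ((q₂ * i) % n) / n := by
    have := congrArg Fin.val h1
    exact this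
  have hmono : (q₁ * i) / n ≤ (q₂ * i) / n := Nat.div_le_div_right (Nat.mul_le_mul_right _ hlt.le)
  have e1 := Nat.div_add_mod (q₁ * i) n
  have e2 := Nat.div_add_mod (q₂ * i) n
  have e3 := Nat.div_add_mod (N * ((q₁ * i) % n)) n
  have e4 := Nat.div_add_mod (N * ((q₂ * i) % n)) n
  have e5 := Nat.mod_lt (N * ((q₁ * i) % n)) (by omega : n > 0)
  have e6 := Nat.mod_lt (N * ((q₂ * i) % n)) (by omega : n > 0)
  rw [h2] at e3
  zify at e1 e2 e3 e4 e5 e6
  push_cast [Nat.cast_sub hlt.le, Nat.cast_sub hmono]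
  have e7 : (N : ℤ) * (((q₂ : ℤ) - q₁) * i - n * ((q₂ * i : ℤ) / n - (q₁ * i : ℤ) / n)) =
      N * ((q₂ * i : ℤ) % n) - N * ((q₁ * i : ℤ) % n) := by
    have e9 : (((q₂ : ℤ) - q₁) * i - n * ((q₂ * i : ℤ) / n - (q₁ * i : ℤ) / n)) =
      ((q₂ * i : ℤ) % n) - ((q₁ * i : ℤ) % n) := by linarith
    rw [e9]; ring
  rw [e7, abs_lt]
  have e8 : (0 : ℤ) ≤ (N * ((q₁ * i : ℤ) % n)) % n := Int.emod_nonneg _ (by omega)
  have e9 : (0 : ℤ) ≤ (N * ((q₂ * i : ℤ) % n)) % n := Int.emod_nonneg _ (by omega)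
  constructor <;> linarith

lemma coprime_of_dvd {b n : ℕ} (hn : 1 ≤ n) {ε x : ℤ} (hε : ε = 1 ∨ ε = -1)
    (hx : x ∣ (b : ℤ) ^ n - ε) : IsCoprime x (b : ℤ) := by
  obtain ⟨y, hy⟩ := hx
  obtain ⟨m, rfl⟩ : ∃ m, n = m + 1 := ⟨n - 1, by omega⟩
  rcases hε with h | h
  · refine ⟨-y, (b : ℤ) ^ m, ?_⟩
    rw [h, pow_succ] at hy
    linarith
  · refine ⟨y, -(b : ℤ) ^ m, ?_⟩
    rw [h, pow_succ] at hy
    linarith

/-- **Common divisors of `b ^ n - ε` and sparse integers.** -/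
theorem main {b n k H N : ℕ} (hb : 2 ≤ b) (hn : 1 ≤ n) (hN : 1 ≤ N) {ε : ℤ} (hε : ε = 1 ∨ ε = -1)
    (hirr : ∀ q : ℕ, 1 ≤ q → q ≤ N ^ (k - 1) →
      Irreducible (X ^ q - C ((ε : ℚ) / (b : ℚ) ^ n) : ℚ[X]))
    {z x : ℤ} (hz : Few b k H z) (hx : x ∣ (b : ℤ) ^ n - ε) (hxz : x ∣ z) :
    ((b : ℤ) ^ n - ε) ∣ z ∨
      |x| ≤ ((k * H * b : ℕ) : ℤ) ^ (N ^ (k - 1)) * (b : ℤ) ^ (2 * n / N) := by
  classical
  obtain ⟨s, c, hs, hc, hzs⟩ := hz
  have hcop := coprime_of_dvd hn hε hx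
  have hcop2 := coprime_of_dvd hn hε (dvd_refl ((b : ℤ) ^ n - ε))
  rcases s.eq_empty_or_nonempty with hemp | hne
  · left
    rw [hzs, hemp, Finset.sum_empty]
    exact dvd_zero _
  have hk : 1 ≤ k := le_trans (Finset.card_pos.2 hne) hs
  obtain ⟨e₀, he₀, hmin⟩ := Finset.exists_min_image s (fun i => i) hne
  let U : Finset ℕ := (s.erase e₀).image (fun i => i - e₀)
  have hU : U.card ≤ k - 1 := by
    refine Finset.card_image_le.trans ?_
    rw [Finset.card_erase_of_mem he₀]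
    omega
  obtain ⟨q, α, hq1, hq2, hα⟩ := dirichletN U hn hN
  have hq3 : q ≤ N ^ (k - 1) := hq2.trans (Nat.pow_le_pow_right hN hU)
  let α' : ℕ → ℕ := fun i => if i = e₀ then 0 else α (i - e₀)
  have hα' : ∀ i ∈ s, |(N : ℤ) * ((q : ℤ) * ((i - e₀ : ℕ) : ℤ) - n * α' i)| < n := by
    intro i hi
    by_cases h : i = e₀
    · simp only [α', h, if_true, Nat.sub_self, Nat.cast_zero, mul_zero, sub_zero, abs_zero]
      exact_mod_cast hn
    · simp only [α', h, if_false]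
      exact hα (i - e₀) (Finset.mem_image_of_mem _ (Finset.mem_erase.2 ⟨h, hi⟩))
  let S : ℕ := (n + N * q - 1) / (N * q)
  have hNq : 0 < N * q := Nat.mul_pos (by omega) (by omega)
  have hS1 : n ≤ N * q * S := by
    have h3 := Nat.div_add_mod (n + N * q - 1) (N * q)
    have h4 := Nat.mod_lt (n + N * q - 1) hNq
    simp only [S]
    omega
  have hS2 : N * q * S ≤ n + N * q - 1 := Nat.mul_div_le _ _
  have hz' : ∑ i ∈ s, c i * (b : ℤ) ^ (i - e₀ + S) = (b : ℤ) ^ S * ∑ i ∈ s, c i * (b : ℤ) ^ (i - e₀) := by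
    rw [Finset.mul_sum]
    apply Finset.sum_congr rfl
    intro i _
    rw [pow_add]; ring
  have hz0 : z = (b : ℤ) ^ e₀ * ∑ i ∈ s, c i * (b : ℤ) ^ (i - e₀) := by
    rw [hzs, Finset.mul_sum]
    apply Finset.sum_congr rfl
    intro i hi
    have h3 : (b : ℤ) ^ i = (b : ℤ) ^ e₀ * (b : ℤ) ^ (i - e₀) := by
      rw [← pow_add]; congr 1; have := hmin i hi; omega
    rw [h3]; ring
  have hxz' : x ∣ ∑ i ∈ s, c i * (b : ℤ) ^ (i - e₀ + S) := by
    rw [hz']
    apply Dvd.dvd.mul_left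
    rw [hz0] at hxz
    exact (IsCoprime.pow_right hcop).dvd_of_dvd_mul_left hxz
  have hcore := core (n := n) (r := 2 * n / N + q) hb hq1 hε (hirr q hq1 hq3) s c
    (fun i => i - e₀ + S) α' (by
      intro i hi
      have h3 := hα' i hi
      rw [abs_lt] at h3
      have h4 : (n : ℤ) ≤ N * q * S := by exact_mod_cast hS1
      have h5 : (0 : ℤ) < N := by exact_mod_cast hN
      have h6 : (0 : ℤ) < N * ((q : ℤ) * ((i - e₀ : ℕ) : ℤ) + q * S - n * α' i) := by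
        have h7 : (N : ℤ) * ((q : ℤ) * ((i - e₀ : ℕ) : ℤ) + q * S - n * α' i) =
            (N : ℤ) * ((q : ℤ) * ((i - e₀ : ℕ) : ℤ) - n * α' i) + N * q * S := by ring
        rw [h7]; linarith [h3.1]
      have h8 : (0 : ℤ) < (q : ℤ) * ((i - e₀ : ℕ) : ℤ) + q * S - n * α' i :=
        lt_of_mul_lt_mul_left (by rw [mul_zero]; exact h6) h5.le
      have h9 : ((n * α' i : ℕ) : ℤ) ≤ ((q * (i - e₀ + S) : ℕ) : ℤ) := by
        push_cast; linarith
      exact_mod_cast h9) (by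
      intro i hi
      have h3 := hα' i hi
      rw [abs_lt] at h3
      have h4 : (N : ℤ) * q * S ≤ n + N * q - 1 := by
        have h5 : N * q * S + 1 ≤ n + N * q := by omega
        have : ((N * q * S + 1 : ℕ) : ℤ) ≤ ((n + N * q : ℕ) : ℤ) := by exact_mod_cast h5
        push_cast at this
        linarith
      have h5 : (0 : ℤ) < N := by exact_mod_cast hN
      have h6 : (N : ℤ) * ((q : ℤ) * ((i - e₀ : ℕ) : ℤ) + q * S - n * α' i - q) < 2 * n := by
        have h7 : (N : ℤ) * ((q : ℤ) * ((i - e₀ : ℕ) : ℤ) + q * S - n * α' i - q) =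
            (N : ℤ) * ((q : ℤ) * ((i - e₀ : ℕ) : ℤ) - n * α' i) + N * q * S - N * q := by ring
        rw [h7]; linarith [h3.2]
      have h8 : (q : ℤ) * ((i - e₀ : ℕ) : ℤ) + q * S - n * α' i - q ≤ ((2 * n / N : ℕ) : ℤ) := by
        push_cast
        rw [Int.le_ediv_iff_mul_le h5]
        linarith
      have h9 : ((q * (i - e₀ + S) : ℕ) : ℤ) ≤ ((n * α' i + (2 * n / N + q) : ℕ) : ℤ) := by
        push_cast at h8 ⊢
        linarith
      exact_mod_cast h9) hx hcop hxz'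
  rcases hcore with h | h
  · left
    rw [hz'] at h
    rw [hz0]
    exact Dvd.dvd.mul_left ((IsCoprime.pow_right hcop2).dvd_of_dvd_mul_left h) _
  · right
    have hsum : ∑ i ∈ s, |c i| ≤ ((k * H : ℕ) : ℤ) := by
      calc ∑ i ∈ s, |c i| ≤ ∑ i ∈ s, (H : ℤ) := Finset.sum_le_sum hc
        _ = (s.card : ℤ) * H := by rw [Finset.sum_const, nsmul_eq_mul]
        _ ≤ ((k * H : ℕ) : ℤ) := by
          push_cast
          exact mul_le_mul_of_nonneg_right (by exact_mod_cast hs) (by positivity)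
    have hsum0 : 0 ≤ ∑ i ∈ s, |c i| := Finset.sum_nonneg (fun i _ => abs_nonneg _)
    have hbz : (1 : ℤ) ≤ b := by exact_mod_cast (by omega : 1 ≤ b)
    have h1 : |x| ≤ (((k * H : ℕ) : ℤ) * b) ^ q * (b : ℤ) ^ (2 * n / N) := by
      refine h.trans ?_
      rw [mul_pow, pow_add]
      calc (∑ i ∈ s, |c i|) ^ q * ((b : ℤ) ^ (2 * n / N) * (b : ℤ) ^ q)
          ≤ ((k * H : ℕ) : ℤ) ^ q * ((b : ℤ) ^ (2 * n / N) * (b : ℤ) ^ q) :=
            mul_le_mul_of_nonneg_right (pow_le_pow_left₀ hsum0 hsum _) (by positivity)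
        _ = _ := by ring
    refine h1.trans ?_
    apply mul_le_mul_of_nonneg_right _ (by positivity)
    have e1 : (((k * H : ℕ) : ℤ) * b) = ((k * H * b : ℕ) : ℤ) := by push_cast; ring
    rw [e1]
    rcases Nat.eq_zero_or_pos (k * H * b) with h0 | h0
    · rw [h0]
      have h2 : N ^ (k - 1) ≠ 0 := by positivity
      simp only [Nat.cast_zero]
      rw [zero_pow (by omega), zero_pow h2]
    · exact pow_le_pow_right₀ (by exact_mod_cast h0) hq3

end Pool.Agent.Helper53.GD
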