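import Mathlib
import Pool.Agent.Helper53.GD.Main

set_option autoImplicit false

namespace Pool.Agent.Helper53.GD

open Finset Polynomial Filter Pool.Agent.Helper53.CD

lemma ev_log (A B : ℝ) (hB : 0 < B) :
    ∀ᶠ n : ℕ in atTop, Real.log n + A < B * Real.sqrt n := by
  have h1 : ∀ᶠ x : ℝ in atTop, ‖Real.log x‖ ≤ (B / 2) * ‖x ^ ((1 : ℝ) / 2)‖ :=
    (isLittleO_log_rpow_atTop (by norm_num : (0 : ℝ) < 1 / 2)).def (by positivity)
  have h2 : Tendsto (fun x : ℝ => (B / 2) * x ^ ((1 : ℝ) / 2)) atTop atTop :=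
    Tendsto.const_mul_atTop (by positivity) (tendsto_rpow_atTop (by norm_num))
  have h3 := h2.eventually_gt_atTop A
  have h4 : ∀ᶠ x : ℝ in atTop, Real.log x + A < B * Real.sqrt x := by
    filter_upwards [h1, h3, eventually_ge_atTop (1 : ℝ)] with x e1 e2 e3
    rw [← Real.sqrt_eq_rpow] at e1 e2
    rw [Real.norm_of_nonneg (Real.log_nonneg e3), Real.norm_of_nonneg (Real.sqrt_nonneg _)] at e1
    linarith
  exact tendsto_natCast_atTop_atTop.eventually h4

/-- **The asymptotic form.** -/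
theorem asym {b H : ℕ} (hb : 2 ≤ b) {ε : ℤ} (hε : ε = 1 ∨ ε = -1) {δ : ℝ} (hδ : 0 < δ) :
    ∃ c : ℝ, 0 < c ∧ ∃ n₀ : ℕ, ∀ n : ℕ, n₀ ≤ n → ∀ L : ℕ, L ≤ n → 2 ≤ L →
      (∀ q : ℕ, 1 ≤ q → q < L → Irreducible (X ^ q - C ((ε : ℚ) / (b : ℚ) ^ n) : ℚ[X])) →
      ∀ (k : ℕ) (x z : ℤ), x ∣ (b : ℤ) ^ n - ε → (b : ℝ) ^ (δ * n) ≤ |(x : ℝ)| → x ∣ z →
        ¬ ((b : ℤ) ^ n - ε) ∣ z → Few b k H z → c * Real.log L < k := by
  have hb1 : (1 : ℝ) < b := by exact_mod_cast (by omega : 1 < b)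
  have hlb : 0 < Real.log b := Real.log_pos hb1
  obtain ⟨N, hN2, hNδ⟩ : ∃ N : ℕ, 2 ≤ N ∧ 4 / δ ≤ N := by
    refine ⟨⌈4 / δ⌉₊ + 2, by omega, ?_⟩
    push_cast
    linarith [Nat.le_ceil (4 / δ)]
  have hNpos : (0 : ℝ) < N := by exact_mod_cast (by omega : 0 < N)
  have hlN : 0 < Real.log N := Real.log_pos (by exact_mod_cast (by omega : 1 < N))
  obtain ⟨n₁, hn₁⟩ := Filter.eventually_atTop.1 (ev_log (Real.log (((H + 1) * b : ℕ) : ℝ))
    (δ / 2 * Real.log b) (by positivity))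
  refine ⟨1 / (2 * Real.log N), by positivity, max n₁ 1, ?_⟩
  intro n hn L hLn hL2 hirr k x z hx hxδ hxz hnot hz
  by_contra hcon
  push Not at hcon
  have hn1 : 1 ≤ n := le_trans (le_max_right _ _) hn
  have hev := hn₁ n (le_trans (le_max_left _ _) hn)
  have hk : 1 ≤ k := by
    by_contra hk
    have hk0 : k = 0 := by omega
    obtain ⟨s, c, hs, _, hzs⟩ := hz
    rw [hk0] at hs
    have hs0 : s = ∅ := Finset.card_eq_zero.1 (by omega)
    apply hnot
    rw [hzs, hs0, Finset.sum_empty]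
    exact dvd_zero _
  have hLpos : (0 : ℝ) < L := by exact_mod_cast (by omega : 0 < L)
  -- `N ^ (2 k) ≤ L`
  have hNk : N ^ (2 * k) ≤ L := by
    have h1 : (k : ℝ) * (2 * Real.log N) ≤ Real.log L := by
      have h2 : (k : ℝ) ≤ Real.log L / (2 * Real.log N) := by
        calc (k : ℝ) ≤ 1 / (2 * Real.log N) * Real.log L := hcon
          _ = _ := by ring
      rwa [le_div_iff₀ (by positivity)] at h2
    have h3 : Real.log ((N : ℝ) ^ (2 * k)) ≤ Real.log L := by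
      rw [Real.log_pow]
      push_cast
      linarith
    have h4 : (N : ℝ) ^ (2 * k) ≤ L := (Real.log_le_log_iff (by positivity) hLpos).1 h3
    exact_mod_cast h4
  have hM : N ^ (k - 1) < L := by
    calc N ^ (k - 1) < N ^ (2 * k) := Nat.pow_lt_pow_right (by omega) (by omega)
      _ ≤ L := hNk
  rcases main hb hn1 (by omega : 1 ≤ N) hε (fun q h1 h2 => hirr q h1 (lt_of_le_of_lt h2 hM)) hz hx hxz
    with h | h
  · exact hnot h
  -- the bound
  have hxr : |(x : ℝ)| ≤ ((k * H * b : ℕ) : ℝ) ^ (N ^ (k - 1)) * (b : ℝ) ^ (2 * n / N) := by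
    have h1 : ((|x| : ℤ) : ℝ) ≤ ((((k * H * b : ℕ) : ℤ) ^ (N ^ (k - 1)) * (b : ℤ) ^ (2 * n / N) : ℤ) : ℝ) := by
      exact_mod_cast h
    push_cast at h1 ⊢
    exact h1
  have hpos : 0 < (b : ℝ) ^ (δ * n) := Real.rpow_pos_of_pos (by linarith) _
  have hkH : 1 ≤ k * H * b := by
    by_contra h0
    have h1 : k * H * b = 0 := by omega
    rw [h1, Nat.cast_zero, zero_pow (by positivity), zero_mul] at hxr
    linarith
  have hlog : δ * n * Real.log b ≤ (N : ℝ) ^ (k - 1) * Real.log ((k * H * b : ℕ) : ℝ) +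
      ((2 * n / N : ℕ) : ℝ) * Real.log b := by
    have h1 : Real.log ((b : ℝ) ^ (δ * n)) ≤
        Real.log (((k * H * b : ℕ) : ℝ) ^ (N ^ (k - 1)) * (b : ℝ) ^ (2 * n / N)) :=
      Real.log_le_log hpos (hxδ.trans hxr)
    have hkHr : (0 : ℝ) < ((k * H * b : ℕ) : ℝ) := by exact_mod_cast hkH
    rw [Real.log_rpow (by linarith), Real.log_mul (by positivity) (by positivity), Real.log_pow,
      Real.log_pow] at h1
    push_cast at h1 ⊢
    linarith
  have hdiv : ((2 * n / N : ℕ) : ℝ) ≤ δ / 2 * n := by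
    have h1 : ((2 * n / N : ℕ) : ℝ) ≤ ((2 * n : ℕ) : ℝ) / N := Nat.cast_div_le
    refine h1.trans ?_
    rw [div_le_iff₀ hNpos]
    rw [div_le_iff₀ hδ] at hNδ
    push_cast
    have h2 : (0 : ℝ) ≤ n := by positivity
    nlinarith
  have hMs : (N : ℝ) ^ (k - 1) ≤ Real.sqrt n := by
    apply Real.le_sqrt_of_sq_le
    have h1 : (N ^ (k - 1)) ^ 2 ≤ n := by
      calc (N ^ (k - 1)) ^ 2 = N ^ ((k - 1) * 2) := by rw [← pow_mul]
        _ ≤ N ^ (2 * k) := Nat.pow_le_pow_right (by omega) (by omega)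
        _ ≤ n := hNk.trans hLn
    exact_mod_cast h1
  have hkn : k ≤ n := by
    calc k ≤ 2 ^ k := (Nat.lt_two_pow_self).le
      _ ≤ N ^ k := Nat.pow_le_pow_left hN2 _
      _ ≤ N ^ (2 * k) := Nat.pow_le_pow_right (by omega) (by omega)
      _ ≤ n := hNk.trans hLn
  have hlk : Real.log ((k * H * b : ℕ) : ℝ) ≤ Real.log n + Real.log (((H + 1) * b : ℕ) : ℝ) := by
    have hnr : (0 : ℝ) < n := by exact_mod_cast hn1
    have hHb : (0 : ℝ) < (((H + 1) * b : ℕ) : ℝ) := by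
      have : 0 < (H + 1) * b := Nat.mul_pos (by omega) (by omega)
      exact_mod_cast this
    rw [← Real.log_mul hnr.ne' hHb.ne']
    apply Real.log_le_log (by exact_mod_cast hkH)
    have h1 : k * H * b ≤ n * ((H + 1) * b) := by
      calc k * H * b ≤ n * (H + 1) * b := Nat.mul_le_mul_right _ (Nat.mul_le_mul hkn (by omega))
        _ = _ := by ring
    exact_mod_cast h1
  have hlk0 : 0 ≤ Real.log ((k * H * b : ℕ) : ℝ) := Real.log_nonneg (by exact_mod_cast hkH)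
  have hsq : Real.sqrt n * Real.sqrt n = n := Real.mul_self_sqrt (by positivity)
  have hs0 : 0 < Real.sqrt n := Real.sqrt_pos.2 (by exact_mod_cast hn1)
  have h5 : (N : ℝ) ^ (k - 1) * Real.log ((k * H * b : ℕ) : ℝ) ≤
      Real.sqrt n * (Real.log n + Real.log (((H + 1) * b : ℕ) : ℝ)) :=
    mul_le_mul hMs hlk hlk0 hs0.le
  have h6 : Real.sqrt n * (Real.log n + Real.log (((H + 1) * b : ℕ) : ℝ)) <
      Real.sqrt n * (δ / 2 * Real.log b * Real.sqrt n) := mul_lt_mul_of_pos_left hev hs0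
  have h7 : Real.sqrt n * (δ / 2 * Real.log b * Real.sqrt n) = δ / 2 * n * Real.log b := by
    calc Real.sqrt n * (δ / 2 * Real.log b * Real.sqrt n) =
        δ / 2 * Real.log b * (Real.sqrt n * Real.sqrt n) := by ring
      _ = _ := by rw [hsq]; ring
  have h8 : ((2 * n / N : ℕ) : ℝ) * Real.log b ≤ δ / 2 * n * Real.log b :=
    mul_le_mul_of_nonneg_right hdiv hlb.le
  have h9 : δ * n * Real.log b = δ / 2 * n * Real.log b + δ / 2 * n * Real.log b := by ring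
  linarith

end Pool.Agent.Helper53.GD
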