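import Mathlib
import Pool.Agent.Helper53.GD.Irr

set_option autoImplicit false

namespace Pool.Agent.Helper53.GD

open Polynomial IntermediateField Pool.Agent.Helper53.FF

/-- a root of `X ^ 2 + A ^ 2` and its negative are no squares, if `2 A` is no square -/
lemma no_sqrt {K : Type} [Field K] [LinearOrder K] [IsStrictOrderedRing K] {E : Type} [Field E]
    [Algebra K E] {A : K} (hA : 0 < A) (h2A : ∀ r : K, r ^ 2 ≠ 2 * A)
    {x : E} (hx : minpoly K x = X ^ 2 - C (-(A ^ 2))) (e : K) (he : e = 1 ∨ e = -1) (y : K⟮x⟯)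
    (hy : y ^ 2 = (algebraMap K K⟮x⟯ e) * AdjoinSimple.gen K x) : False := by
  have hint : IsIntegral K x := not_not.mp fun h ↦ by
    have h4 := congr_arg degree (hx.symm.trans (dif_neg h))
    rw [degree_X_pow_sub_C (by norm_num), degree_zero] at h4
    exact WithBot.natCast_ne_bot _ h4
  set g : K⟮x⟯ := AdjoinSimple.gen K x with hg
  have hg2 : g ^ 2 = algebraMap K K⟮x⟯ (-(A ^ 2)) := by
    have h1 := minpoly.aeval K x
    rw [hx] at h1
    simp only [map_sub, map_pow, aeval_X, aeval_C] at h1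
    apply Subtype.ext
    rw [hg]
    push_cast
    rw [sub_eq_zero] at h1
    simpa using h1
  -- the basis
  obtain ⟨f, hfdeg, hf⟩ := (adjoin.powerBasis hint).exists_eq_aeval y
  rw [adjoin.powerBasis_dim, hx, natDegree_X_pow_sub_C] at hfdeg
  rw [adjoin.powerBasis_gen, ← hg] at hf
  have hf2 : f = C (f.coeff 1) * X + C (f.coeff 0) := by
    apply Polynomial.eq_X_add_C_of_natDegree_le_one
    omega
  have hyuv : y = algebraMap K K⟮x⟯ (f.coeff 0) + algebraMap K K⟮x⟯ (f.coeff 1) * g := by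
    rw [hf]
    conv_lhs => rw [hf2]
    simp only [map_add, map_mul, aeval_C, aeval_X]
    ring
  set u := f.coeff 0
  set v := f.coeff 1
  have hsq : algebraMap K K⟮x⟯ (u ^ 2 - A ^ 2 * v ^ 2) + algebraMap K K⟮x⟯ (2 * u * v - e) * g = 0 := by
    have h1 : y ^ 2 = algebraMap K K⟮x⟯ (u ^ 2) + algebraMap K K⟮x⟯ (2 * u * v) * g +
        algebraMap K K⟮x⟯ (v ^ 2) * g ^ 2 := by
      rw [hyuv]
      simp only [map_pow, map_mul, map_ofNat]
      ring
    rw [hy, hg2] at h1
    simp only [map_sub, map_mul, map_pow, map_neg] at h1 ⊢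
    linear_combination -h1
  -- independence of `1, g`
  have hind : ∀ a c : K, algebraMap K K⟮x⟯ a + algebraMap K K⟮x⟯ c * g = 0 → a = 0 ∧ c = 0 := by
    intro a c h
    by_cases hc : c = 0
    · rw [hc] at h
      simp only [map_zero, zero_mul, add_zero] at h
      exact ⟨(map_eq_zero _).1 h, hc⟩
    · exfalso
      have h1 : g = algebraMap K K⟮x⟯ (-a / c) := by
        rw [map_div₀, map_neg]
        have hc' : algebraMap K K⟮x⟯ c ≠ 0 := (_root_.map_ne_zero _).2 hc
        field_simp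
        linear_combination h
      rw [h1, ← map_pow] at hg2
      have h2 : (-a / c) ^ 2 = -(A ^ 2) := (algebraMap K K⟮x⟯).injective hg2
      nlinarith [sq_nonneg (-a / c), sq_pos_of_pos hA]
  obtain ⟨h1, h2⟩ := hind _ _ hsq
  have hv : v ≠ 0 := by
    intro hv
    rw [hv, mul_zero, zero_sub] at h2
    rcases he with h | h <;> rw [h] at h2 <;> norm_num at h2
  have h3 : (u - A * v) * (u + A * v) = 0 := by linear_combination h1
  rcases mul_eq_zero.1 h3 with h4 | h4
  · have h5 : u = A * v := by linarith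
    rw [h5] at h2
    have h6 : 2 * A * v ^ 2 = e := by linear_combination h2
    rcases he with h | h
    · apply h2A (1 / v)
      rw [h] at h6
      field_simp
      linarith
    · rw [h] at h6
      have : 0 < 2 * A * v ^ 2 := by positivity
      linarith
  · have h5 : u = -(A * v) := by linarith
    rw [h5] at h2
    have h6 : 2 * A * v ^ 2 = -e := by linear_combination -h2
    rcases he with h | h
    · rw [h] at h6
      have : 0 < 2 * A * v ^ 2 := by positivity
      linarith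
    · apply h2A (1 / v)
      rw [h] at h6
      field_simp
      linarith

/-- `X ^ (2 ^ s) + A ^ 2` is irreducible if `2 A` is no square -/
theorem irr_two_sq {K : Type} [Field K] [LinearOrder K] [IsStrictOrderedRing K] {A : K} (hA : 0 < A) (h2A : ∀ r : K, r ^ 2 ≠ 2 * A) (s : ℕ) :
    Irreducible (X ^ (2 ^ s) - C (-(A ^ 2)) : K[X]) := by
  rcases Nat.eq_zero_or_pos s with hs | hs
  · subst hs
    rw [pow_zero, pow_one]
    exact irreducible_X_sub_C _
  obtain ⟨t, rfl⟩ : ∃ t, s = t + 1 := ⟨s - 1, by omega⟩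
  have hneg : ∀ r : K, r ^ 2 ≠ -(A ^ 2) := by
    intro r hr
    nlinarith [sq_nonneg r, sq_pos_of_pos hA]
  have h2 : Irreducible (X ^ 2 - C (-(A ^ 2)) : K[X]) :=
    X_pow_sub_C_irreducible_of_prime Nat.prime_two hneg
  rw [pow_succ]
  apply X_pow_mul_sub_C_irreducible h2
  intro E _ _ x hx
  apply irr_two
  · intro r hr
    exact no_sqrt hA h2A hx 1 (Or.inl rfl) r (by rw [hr]; simp)
  · intro r hr
    exact no_sqrt hA h2A hx (-1) (Or.inr rfl) r (by rw [hr]; simp)

/-- `X ^ q + b ^ (- n)` is irreducible, if `b` is no odd power and not `4 c ^ 4`, and no prime divides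
both `q` and `n`, which is odd -/
theorem irr_wagstaff {b n q : ℕ} (hb : 2 ≤ b)
    (hodd : ∀ p : ℕ, p.Prime → p ≠ 2 → ∀ c : ℕ, c ^ p ≠ b) (h4 : ∀ c : ℕ, 4 * c ^ 4 ≠ b)
    (hn : Odd n) (hq : 1 ≤ q) (hcop : ∀ p : ℕ, p.Prime → p ∣ q → ¬ p ∣ n) :
    Irreducible (X ^ q - C (((-1 : ℤ) : ℚ) / (b : ℚ) ^ n) : ℚ[X]) := by
  by_cases hsq : ∃ a : ℕ, a ^ 2 = b
  · obtain ⟨a, ha⟩ := hsq
    have ha1 : 2 ≤ a := by
      by_contra hcon
      have h1 : a ≤ 1 := by omega
      have h2 : a ^ 2 ≤ 1 := by nlinarith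
      omega
    have hapos : (0 : ℚ) < a := by exact_mod_cast (by omega : 0 < a)
    have hbq : (b : ℚ) = (a : ℚ) ^ 2 := by exact_mod_cast ha.symm
    have hτ : ((-1 : ℤ) : ℚ) / (b : ℚ) ^ n = -((1 / (a : ℚ) ^ n) ^ 2) := by
      rw [hbq]
      push_cast
      rw [div_pow, one_pow, ← pow_mul, ← pow_mul, mul_comm 2 n]
      ring
    rw [hτ]
    have h2A : ∀ r : ℚ, r ^ 2 ≠ 2 * (1 / (a : ℚ) ^ n) := by
      intro r hr
      -- `2 a` is a square
      obtain ⟨t, ht⟩ := hn
      have h1 : (r * (a : ℚ) ^ (t + 1)) ^ 2 = ((2 * a : ℕ) : ℚ) := by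
        rw [mul_pow, hr, ht, ← pow_mul]
        have e1 : (a : ℚ) ^ ((t + 1) * 2) = (a : ℚ) ^ (2 * t + 1) * a := by
          rw [← pow_succ]; congr 1; ring
        rw [e1]
        push_cast
        field_simp
      have h2 : IsSquare ((2 * a : ℕ) : ℚ) := ⟨r * (a : ℚ) ^ (t + 1), by rw [← h1, sq]⟩
      rw [Rat.isSquare_natCast_iff] at h2
      obtain ⟨d, hd⟩ := h2
      have h3 : Even d := by
        have h5 : Even (d * d) := by rw [← hd]; exact even_two_mul a
        rcases Nat.even_mul.1 h5 with h | h <;> exact h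
      obtain ⟨f, hf⟩ := h3
      apply h4 f
      rw [← ha]
      have h6 : a = 2 * f ^ 2 := by
        rw [hf] at hd
        nlinarith
      rw [h6]; ring
    have hApos : 0 < 1 / (a : ℚ) ^ n := by positivity
    obtain ⟨s, w, hw, rfl⟩ := Nat.exists_eq_two_pow_mul_odd (by omega : q ≠ 0)
    rw [mul_comm]
    apply irr_odd (by positivity) (irr_two_sq hApos h2A s) hw
    intro p hp hpw r hr
    have hp2 : p ≠ 2 := by
      rintro rfl
      exact (Nat.not_even_iff_odd.2 hw) (even_iff_two_dvd.2 hpw)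
    have hpn : ¬ p ∣ n := hcop p hp (Dvd.dvd.mul_left hpw _)
    apply no_root hb (hodd p hp hp2) hp.ne_zero ((Nat.Prime.coprime_iff_not_dvd hp).2 hpn) ?_ hr
    rw [abs_mul, abs_neg, abs_pow, abs_neg, abs_one, one_pow, one_mul, ← hτ]
    rw [abs_div, abs_of_pos (by positivity : (0 : ℚ) < (b : ℚ) ^ n)]
    simp
  · push Not at hsq
    apply irr_nonpower hb ?_ hq hcop (Or.inr rfl)
    intro p hp c
    by_cases hp2 : p = 2
    · subst hp2; exact hsq c
    · exact hodd p hp hp2 c

end Pool.Agent.Helper53.GD
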