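import Mathlib
import Pool.Agent.Helper53.GD.Asym
import Pool.Agent.Helper53.GD.IrrSq
import Pool.Agent.Helper53.FF.Digits2

set_option autoImplicit false

namespace Pool.Agent.Helper53.GD

open Finset Polynomial Pool.Agent.Helper53.CD Pool.Agent.Helper53.FF

/-- greatest common divisors with a divisor `M` of `b ^ n - ε` -/
theorem gcd_of_dvd {b n k H N : ℕ} (hb : 2 ≤ b) (hn : 1 ≤ n) (hN : 1 ≤ N) {ε : ℤ}
    (hε : ε = 1 ∨ ε = -1)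
    (hirr : ∀ q : ℕ, 1 ≤ q → q ≤ N ^ (k - 1) →
      Irreducible (X ^ q - C ((ε : ℚ) / (b : ℚ) ^ n) : ℚ[X]))
    {z z' M : ℤ} (hz : Few b k H z') (hzz : z ∣ z') (hM : M ∣ (b : ℤ) ^ n - ε) :
    ((b : ℤ) ^ n - ε) ∣ z' ∨ Int.gcd z M ≤ (k * H * b) ^ (N ^ (k - 1)) * b ^ (2 * n / N) := by
  rcases main hb hn hN hε hirr hz (x := (Int.gcd z M : ℤ)) ((Int.gcd_dvd_right z M).trans hM)
    ((Int.gcd_dvd_left z M).trans hzz) with h | h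
  · exact Or.inl h
  · right
    rw [Nat.abs_cast] at h
    exact_mod_cast h

lemma cop_of_rough {n K : ℕ} (h : ∀ p : ℕ, p.Prime → p ∣ n → K < p) {q : ℕ} (hq1 : 1 ≤ q)
    (hq : q ≤ K) : ∀ p : ℕ, p.Prime → p ∣ q → ¬ p ∣ n := by
  intro p hp hpq hpn
  have h1 := h p hp hpn
  have h2 := Nat.le_of_dvd (by omega) hpq
  omega

/-- repunits are prime to `b ^ R - 1` for `1 ≤ R < n` -/
lemma repunit_coprime {b n R : ℕ} (hb : 2 ≤ b) (hn : n.Prime) (hnb : ¬ n ∣ b - 1) (hR : 1 ≤ R)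
    (hRn : R < n) : Nat.Coprime (∑ i ∈ range n, b ^ i) (b ^ R - 1) := by
  set M := ∑ i ∈ range n, b ^ i with hM
  have h1 : M * (b - 1) = b ^ n - 1 := by
    have h := Nat.geomSum_eq hb n
    have hd : (b - 1) ∣ b ^ n - 1 := by
      have := Nat.sub_dvd_pow_sub_pow b 1 n
      rwa [one_pow] at this
    rw [hM, h, Nat.div_mul_cancel hd]
  have hgd : Nat.gcd M (b ^ R - 1) ∣ b - 1 := by
    have h4 : Nat.gcd M (b ^ R - 1) ∣ Nat.gcd (b ^ n - 1) (b ^ R - 1) :=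
      Nat.dvd_gcd ((Nat.gcd_dvd_left _ _).trans ⟨b - 1, h1.symm⟩) (Nat.gcd_dvd_right _ _)
    rw [Nat.pow_sub_one_gcd_pow_sub_one] at h4
    have h5 : Nat.gcd n R = 1 :=
      (Nat.Prime.coprime_iff_not_dvd hn).2 (Nat.not_dvd_of_pos_of_lt (by omega) hRn)
    rwa [h5, pow_one] at h4
  have hgn : Nat.gcd M (b ^ R - 1) ∣ n := by
    have h6 : ((b - 1 : ℕ) : ℤ) ∣ (M : ℤ) - n := by
      have h7 : (M : ℤ) - n = ∑ i ∈ range n, ((b : ℤ) ^ i - 1) := by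
        rw [Finset.sum_sub_distrib, hM]
        push_cast
        simp
      rw [h7]
      apply Finset.dvd_sum
      intro i _
      rw [Nat.cast_sub (by omega : 1 ≤ b), Nat.cast_one]
      have := sub_dvd_pow_sub_pow (b : ℤ) 1 i
      rwa [one_pow] at this
    have h8 : ((Nat.gcd M (b ^ R - 1) : ℕ) : ℤ) ∣ (M : ℤ) - n :=
      (Int.natCast_dvd_natCast.2 hgd).trans h6
    have h9 : ((Nat.gcd M (b ^ R - 1) : ℕ) : ℤ) ∣ (M : ℤ) :=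
      Int.natCast_dvd_natCast.2 (Nat.gcd_dvd_left _ _)
    have h10 : ((Nat.gcd M (b ^ R - 1) : ℕ) : ℤ) ∣ (n : ℤ) := (dvd_sub_right h9).1 h8
    exact_mod_cast h10
  rcases (Nat.dvd_prime hn).1 hgn with h | h
  · exact h
  · exfalso
    rw [h] at hgd
    exact hnb hgd

/-- changes of digits: from `b ^ R - 1` times the number to the number -/
lemma repunit_dvd {b n R : ℕ} (hb : 2 ≤ b) (hn : n.Prime) (hnb : ¬ n ∣ b - 1) (hR : 1 ≤ R)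
    (hRn : R < n) {z : ℤ} (h : ((b : ℤ) ^ n - 1) ∣ ((b : ℤ) ^ R - 1) * z) :
    (∑ i ∈ range n, (b : ℤ) ^ i) ∣ z := by
  have h1 := repunit_coprime hb hn hnb hR hRn
  have h2 : (∑ i ∈ range n, (b : ℤ) ^ i) * ((b : ℤ) - 1) = (b : ℤ) ^ n - 1 := geom_sum_mul _ _
  have h3 : (∑ i ∈ range n, (b : ℤ) ^ i) ∣ ((b : ℤ) ^ R - 1) * z := (Dvd.intro _ h2).trans h
  have h4 : IsCoprime (∑ i ∈ range n, (b : ℤ) ^ i) ((b : ℤ) ^ R - 1) := by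
    have h5 : IsCoprime ((∑ i ∈ range n, b ^ i : ℕ) : ℤ) ((b ^ R - 1 : ℕ) : ℤ) :=
      Nat.isCoprime_iff_coprime.2 h1
    rw [Nat.cast_sub (Nat.one_le_pow _ _ (by omega))] at h5
    push_cast at h5
    exact h5
  exact h4.dvd_of_dvd_mul_left h3

/-- repunits: a sparse multiple of `b ^ n - 1` -/
lemma repunit_dvd' {b n : ℕ} {z : ℤ} (h : ((b : ℤ) ^ n - 1) ∣ z) :
    (∑ i ∈ range n, (b : ℤ) ^ i) ∣ z := by
  have h2 : (∑ i ∈ range n, (b : ℤ) ^ i) * ((b : ℤ) - 1) = (b : ℤ) ^ n - 1 := geom_sum_mul _ _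
  exact (Dvd.intro _ h2).trans h

lemma repunit_dvd_pow (b n : ℕ) : (∑ i ∈ range n, (b : ℤ) ^ i) ∣ (b : ℤ) ^ n - 1 :=
  Dvd.intro _ (geom_sum_mul _ _)

/-- **Repunits and sparse integers.** -/
theorem repunit_few {b n k H N : ℕ} (hb : 2 ≤ b) (hpow : ∀ p : ℕ, p.Prime → ∀ c : ℕ, c ^ p ≠ b)
    (hn : 1 ≤ n) (hN : 1 ≤ N) (hrough : ∀ p : ℕ, p.Prime → p ∣ n → N ^ (k - 1) < p) {z : ℤ}
    (hz : Few b k H z) (hnot : ¬ (∑ i ∈ range n, (b : ℤ) ^ i) ∣ z) :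
    Int.gcd z (∑ i ∈ range n, (b : ℤ) ^ i) ≤ (k * H * b) ^ (N ^ (k - 1)) * b ^ (2 * n / N) := by
  rcases gcd_of_dvd hb hn hN (Or.inl rfl)
    (fun q h1 h2 => irr_nonpower hb hpow h1 (cop_of_rough hrough h1 h2) (Or.inl rfl)) hz
    (dvd_refl z) (repunit_dvd_pow b n) with h | h
  · exact absurd (repunit_dvd' h) hnot
  · exact h

/-- **Repunits and integers with digits periodic up to few exceptions.** -/
theorem repunit_changes {b n k R N : ℕ} (hb : 2 ≤ b)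
    (hpow : ∀ p : ℕ, p.Prime → ∀ c : ℕ, c ^ p ≠ b) (hn : n.Prime) (hnb : ¬ n ∣ b - 1) (hN : 1 ≤ N)
    (hR : 1 ≤ R) (hRn : R < n) (hNn : N ^ (k + min k R - 1) < n) {z : ℤ}
    (hz : FewChanges b R k z) (hnot : ¬ (∑ i ∈ range n, (b : ℤ) ^ i) ∣ z) :
    Int.gcd z (∑ i ∈ range n, (b : ℤ) ^ i) ≤
      ((k + min k R) * (b - 1) * b) ^ (N ^ (k + min k R - 1)) * b ^ (2 * n / N) := by
  have hrough : ∀ p : ℕ, p.Prime → p ∣ n → N ^ (k + min k R - 1) < p := by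
    intro p hp hpn
    rw [(Nat.prime_dvd_prime_iff_eq hp hn).1 hpn]
    exact hNn
  rcases gcd_of_dvd hb hn.one_lt.le hN (Or.inl rfl)
    (fun q h1 h2 => irr_nonpower hb hpow h1 (cop_of_rough hrough h1 h2) (Or.inl rfl))
    (few_of_changes hb hR hz) (Dvd.intro_left _ rfl) (repunit_dvd_pow b n) with h | h
  · exact absurd (repunit_dvd hb hn hnb hR hRn h) hnot
  · exact h

/-- the least prime factor: no common prime factors below it -/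
lemma cop_minFac {n q : ℕ} (hq1 : 1 ≤ q) (hq : q < n.minFac) :
    ∀ p : ℕ, p.Prime → p ∣ q → ¬ p ∣ n := by
  intro p hp hpq hpn
  have h1 := Nat.minFac_le_of_dvd hp.two_le hpn
  have h2 := Nat.le_of_dvd (by omega) hpq
  omega

/-- **Repunits, asymptotically.** -/
theorem repunit_asym {b H : ℕ} (hb : 2 ≤ b) (hpow : ∀ p : ℕ, p.Prime → ∀ c : ℕ, c ^ p ≠ b)
    {δ : ℝ} (hδ : 0 < δ) :
    ∃ c : ℝ, 0 < c ∧ ∃ n₀ : ℕ, ∀ n : ℕ, n₀ ≤ n → ∀ (k : ℕ) (x z : ℤ),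
      x ∣ ∑ i ∈ range n, (b : ℤ) ^ i → (b : ℝ) ^ (δ * n) ≤ |(x : ℝ)| → x ∣ z →
      ¬ (∑ i ∈ range n, (b : ℤ) ^ i) ∣ z → Few b k H z → c * Real.log n.minFac < k := by
  obtain ⟨c, hc, n₀, h⟩ := asym (H := H) hb (Or.inl rfl : (1 : ℤ) = 1 ∨ (1 : ℤ) = -1) hδ
  refine ⟨c, hc, max n₀ 2, ?_⟩
  intro n hn k x z hx hxδ hxz hnot hz
  have hn2 : 2 ≤ n := le_trans (le_max_right _ _) hn
  have hmf : n.minFac.Prime := Nat.minFac_prime (by omega)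
  exact h n (le_trans (le_max_left _ _) hn) n.minFac (Nat.minFac_le (by omega)) hmf.two_le
    (fun q h1 h2 => irr_nonpower hb hpow h1 (cop_minFac h1 h2) (Or.inl rfl)) k x z
    (hx.trans (repunit_dvd_pow b n)) hxδ hxz (fun h' => hnot (repunit_dvd' h')) hz

/-- **Repunits, asymptotically, for changes of digits.** -/
theorem repunit_asym_changes {b : ℕ} (hb : 2 ≤ b)
    (hpow : ∀ p : ℕ, p.Prime → ∀ c : ℕ, c ^ p ≠ b) {δ : ℝ} (hδ : 0 < δ) :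
    ∃ c : ℝ, 0 < c ∧ ∃ n₀ : ℕ, ∀ n : ℕ, n₀ ≤ n → n.Prime → ∀ (k R : ℕ) (x z : ℤ),
      x ∣ ∑ i ∈ range n, (b : ℤ) ^ i → (b : ℝ) ^ (δ * n) ≤ |(x : ℝ)| → x ∣ z →
      ¬ (∑ i ∈ range n, (b : ℤ) ^ i) ∣ z → 1 ≤ R → R < n → FewChanges b R k z →
      c * Real.log n < k := by
  obtain ⟨c, hc, n₀, h⟩ := asym (H := b - 1) hb (Or.inl rfl : (1 : ℤ) = 1 ∨ (1 : ℤ) = -1) hδ
  refine ⟨c / 2, by positivity, max n₀ (b + 2), ?_⟩
  intro n hn hp k R x z hx hxδ hxz hnot hR hRn hz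
  have hnb2 : b + 2 ≤ n := le_trans (le_max_right _ _) hn
  have hnb : ¬ n ∣ b - 1 := Nat.not_dvd_of_pos_of_lt (by omega) (by omega)
  have hmf : n.minFac = n := hp.minFac_eq
  have h1 := h n (le_trans (le_max_left _ _) hn) n le_rfl hp.two_le
    (fun q h1 h2 => irr_nonpower hb hpow h1 (cop_minFac h1 (by rw [hmf]; exact h2)) (Or.inl rfl))
    (k + min k R) x (((b : ℤ) ^ R - 1) * z)
    (hx.trans (repunit_dvd_pow b n)) hxδ (Dvd.dvd.mul_left hxz _)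
    (fun h' => hnot (repunit_dvd hb hp hnb hR hRn h')) (few_of_changes hb hR hz)
  have h2 : ((k + min k R : ℕ) : ℝ) ≤ 2 * k := by
    have : k + min k R ≤ 2 * k := by omega
    exact_mod_cast this
  linarith

/-- **Generalized Wagstaff numbers and sparse integers.** -/
theorem wagstaff_few {b n k H N : ℕ} (hb : 2 ≤ b)
    (hodd : ∀ p : ℕ, p.Prime → p ≠ 2 → ∀ c : ℕ, c ^ p ≠ b) (h4 : ∀ c : ℕ, 4 * c ^ 4 ≠ b)
    (hn : Odd n) (hN : 1 ≤ N) (hrough : ∀ p : ℕ, p.Prime → p ∣ n → N ^ (k - 1) < p) {z : ℤ}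
    (hz : Few b k H z) (hnot : ¬ (((b : ℤ) ^ n + 1) / ((b : ℤ) + 1)) ∣ z) :
    Int.gcd z (((b : ℤ) ^ n + 1) / ((b : ℤ) + 1)) ≤
      (k * H * b) ^ (N ^ (k - 1)) * b ^ (2 * n / N) := by
  have hd : ((b : ℤ) + 1) ∣ (b : ℤ) ^ n + 1 := by
    have := hn.add_dvd_pow_add_pow (b : ℤ) 1
    rwa [one_pow] at this
  have hQ : (((b : ℤ) ^ n + 1) / ((b : ℤ) + 1)) ∣ (b : ℤ) ^ n - (-1) := by
    rw [sub_neg_eq_add]
    exact ⟨(b : ℤ) + 1, (Int.ediv_mul_cancel hd).symm⟩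
  rcases gcd_of_dvd hb hn.pos hN (Or.inr rfl)
    (fun q h1 h2 => irr_wagstaff hb hodd h4 hn h1 (cop_of_rough hrough h1 h2)) hz
    (dvd_refl z) hQ with h | h
  · exact absurd (hQ.trans h) hnot
  · exact h

/-- **Generalized Wagstaff numbers, asymptotically.** -/
theorem wagstaff_asym {b H : ℕ} (hb : 2 ≤ b)
    (hodd : ∀ p : ℕ, p.Prime → p ≠ 2 → ∀ c : ℕ, c ^ p ≠ b) (h4 : ∀ c : ℕ, 4 * c ^ 4 ≠ b)
    {δ : ℝ} (hδ : 0 < δ) :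
    ∃ c : ℝ, 0 < c ∧ ∃ n₀ : ℕ, ∀ n : ℕ, n₀ ≤ n → Odd n → ∀ (k : ℕ) (x z : ℤ),
      x ∣ ((b : ℤ) ^ n + 1) / ((b : ℤ) + 1) → (b : ℝ) ^ (δ * n) ≤ |(x : ℝ)| → x ∣ z →
      ¬ (((b : ℤ) ^ n + 1) / ((b : ℤ) + 1)) ∣ z → Few b k H z → c * Real.log n.minFac < k := by
  obtain ⟨c, hc, n₀, h⟩ := asym (H := H) hb (Or.inr rfl : (-1 : ℤ) = 1 ∨ (-1 : ℤ) = -1) hδ
  refine ⟨c, hc, max n₀ 2, ?_⟩
  intro n hn hno k x z hx hxδ hxz hnot hz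
  have hn2 : 2 ≤ n := le_trans (le_max_right _ _) hn
  have hmf : n.minFac.Prime := Nat.minFac_prime (by omega)
  have hd : ((b : ℤ) + 1) ∣ (b : ℤ) ^ n + 1 := by
    have := hno.add_dvd_pow_add_pow (b : ℤ) 1
    rwa [one_pow] at this
  have hQ : (((b : ℤ) ^ n + 1) / ((b : ℤ) + 1)) ∣ (b : ℤ) ^ n - (-1) := by
    rw [sub_neg_eq_add]
    exact ⟨(b : ℤ) + 1, (Int.ediv_mul_cancel hd).symm⟩
  exact h n (le_trans (le_max_left _ _) hn) n.minFac (Nat.minFac_le (by omega)) hmf.two_le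
    (fun q h1 h2 => irr_wagstaff hb hodd h4 hno h1 (cop_minFac h1 h2)) k x z
    (hx.trans hQ) hxδ hxz (fun h' => hnot (hQ.trans h')) hz

lemma irr_ferm {b m q : ℕ} (hb : 2 ≤ b) (hodd : ∀ p : ℕ, p.Prime → p ≠ 2 → ∀ c : ℕ, c ^ p ≠ b)
    (hq : 1 ≤ q) (hqm : q < 2 ^ m) :
    Irreducible (X ^ q - C (((-1 : ℤ) : ℚ) / (b : ℚ) ^ (2 ^ m)) : ℚ[X]) := by
  have h := irr_inv hb hodd hq hqm
  have e : ((-1 : ℤ) : ℚ) / (b : ℚ) ^ (2 ^ m) = -(((b : ℚ)⁻¹) ^ (2 ^ m)) := by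
    push_cast
    rw [inv_pow]
    ring
  rw [e]
  exact h

/-- **Generalized Fermat numbers and sparse integers.** -/
theorem fermat_few {b m k H N : ℕ} (hb : 2 ≤ b)
    (hodd : ∀ p : ℕ, p.Prime → p ≠ 2 → ∀ c : ℕ, c ^ p ≠ b) (hN : 1 ≤ N)
    (hNm : N ^ (k - 1) < 2 ^ m) {z : ℤ} (hz : Few b k H z) (hnot : ¬ ((b : ℤ) ^ (2 ^ m) + 1) ∣ z) :
    Int.gcd z ((b : ℤ) ^ (2 ^ m) + 1) ≤ (k * H * b) ^ (N ^ (k - 1)) * b ^ (2 * 2 ^ m / N) := by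
  have e : (b : ℤ) ^ (2 ^ m) + 1 = (b : ℤ) ^ (2 ^ m) - (-1) := by ring
  rw [e] at hnot ⊢
  rcases gcd_of_dvd hb (Nat.one_le_two_pow) hN (Or.inr rfl)
    (fun q h1 h2 => irr_ferm hb hodd h1 (lt_of_le_of_lt h2 hNm)) hz
    (dvd_refl z) (dvd_refl ((b : ℤ) ^ (2 ^ m) - (-1))) with h | h
  · exact absurd h hnot
  · exact h

/-- **Generalized Fermat numbers, asymptotically.** -/
theorem fermat_asym {b H : ℕ} (hb : 2 ≤ b)
    (hodd : ∀ p : ℕ, p.Prime → p ≠ 2 → ∀ c : ℕ, c ^ p ≠ b) {δ : ℝ} (hδ : 0 < δ) :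
    ∃ c : ℝ, 0 < c ∧ ∃ m₀ : ℕ, ∀ m : ℕ, m₀ ≤ m → ∀ (k : ℕ) (x z : ℤ),
      x ∣ (b : ℤ) ^ (2 ^ m) + 1 → (b : ℝ) ^ (δ * 2 ^ m) ≤ |(x : ℝ)| → x ∣ z →
      ¬ ((b : ℤ) ^ (2 ^ m) + 1) ∣ z → Few b k H z → c * m < k := by
  obtain ⟨c, hc, n₀, h⟩ := asym (H := H) hb (Or.inr rfl : (-1 : ℤ) = 1 ∨ (-1 : ℤ) = -1) hδ
  refine ⟨c * Real.log 2, mul_pos hc (Real.log_pos (by norm_num)), max n₀ 1, ?_⟩
  intro m hm k x z hx hxδ hxz hnot hz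
  have hm1 : 1 ≤ m := le_trans (le_max_right _ _) hm
  have e : (b : ℤ) ^ (2 ^ m) + 1 = (b : ℤ) ^ (2 ^ m) - (-1) := by ring
  rw [e] at hnot hx
  have h1 : n₀ ≤ 2 ^ m := (le_trans (le_max_left _ _) hm).trans (Nat.lt_two_pow_self).le
  have h2 : 2 ≤ 2 ^ m := by
    calc 2 = 2 ^ 1 := by norm_num
      _ ≤ 2 ^ m := Nat.pow_le_pow_right (by norm_num) hm1
  have h3 := h (2 ^ m) h1 (2 ^ m) le_rfl h2 (fun q h1 h2 => irr_ferm hb hodd h1 h2) k x z hx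
    (by push_cast; exact hxδ) hxz hnot hz
  push_cast at h3
  rw [Real.log_pow] at h3
  calc c * Real.log 2 * m = c * (m * Real.log 2) := by ring
    _ < k := h3

end Pool.Agent.Helper53.GD
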