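import Mathlib
import Pool.Agent.Helper53.GD.Forms

/-!
# Large divisors of repunits have no sparse multiples

Let `R_n = 1 + 10 + ... + 10 ^ (n - 1)`.

* If the decimal digits of the integer `z` are periodic with a period `r < n` up to `k` exceptions, `n` is a prime
  and `z` is not a multiple of `R_n`, then the greatest common divisor of `z` and `R_n` is at most
  `(90 K) ^ (N ^ (K - 1)) 10 ^ (2 n / N)`, for `K = k + min k r` and all `N` with `N ^ (K - 1) < n`.
* The same for sums of `k` terms `c 10 ^ i` with `|c| ≤ H`, and for all `n` without small prime factors.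
* So for every `δ > 0` there is `c > 0` such that for all large primes `n` and every divisor `x ≥ 10 ^ (δ n)` of
  `R_n`, all multiples `z` of `x`, except the multiples of `R_n`, have more than `c log n` decimal digits which
  differ from the digit `r` places higher, for every period `1 ≤ r < n`.
* In particular this holds for the larger factor in every factorization of a repunit with prime length.

Proof. By Dirichlet's theorem the exponents are near to the multiples of `n / q` for some `q ≤ N ^ (k - 1)`. The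
determinant of the multiplication by the sparse integer in the number field generated by a root of
`X ^ q = 10 ^ (- n)` is an integer divisible by the common divisor, small, and not zero.
-/

set_option autoImplicit false

namespace Pool.Agent.Helper53.GD.RepunitSparse

/-- `z` is a sum of at most `k` terms `c * b ^ i`, with different exponents `i` and integers `c` with
`|c| ≤ H` -/
def Few (b k H : ℕ) (z : ℤ) : Prop :=
  ∃ (s : Finset ℕ) (c : ℕ → ℤ), s.card ≤ k ∧ (∀ i ∈ s, |c i| ≤ H) ∧ z = ∑ i ∈ s, c i * (b : ℤ) ^ i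

/-- the digit of `|x|` at `b ^ i`, in base `b` -/
def dig (b : ℕ) (x : ℤ) (i : ℕ) : ℕ := x.natAbs / b ^ i % b

/-- in the expansion of `x` in base `b` (which begins with infinitely many zeros) at most `k` digits
are different from the digit `R` places before it -/
def FewChanges (b R k : ℕ) (x : ℤ) : Prop := Set.encard {i : ℕ | dig b x i ≠ dig b x (i + R)} ≤ k

/-- the decimal repunits -/
def Rep (n : ℕ) : ℤ := ∑ i ∈ Finset.range n, 10 ^ i

lemma nonpower_ten : ∀ p : ℕ, p.Prime → ∀ c : ℕ, c ^ p ≠ 10 := by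
  intro p hp c h
  have h2 := hp.two_le
  have hc : c ≤ 3 := by
    by_contra hc
    push Not at hc
    have h3 : 4 ^ 2 ≤ c ^ p := (Nat.pow_le_pow_left hc 2).trans (Nat.pow_le_pow_right (by omega) h2)
    omega
  have hp4 : 2 ≤ c → p ≤ 3 := by
    intro hc2
    by_contra hp4
    push Not at hp4
    have h3 : 2 ^ 4 ≤ c ^ p := (Nat.pow_le_pow_left hc2 4).trans (Nat.pow_le_pow_right (by omega) hp4)
    omega
  interval_cases c
  · rw [zero_pow hp.ne_zero] at h; omega
  · rw [one_pow] at h; omega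
  · have := hp4 (by norm_num)
    interval_cases p <;> omega
  · have := hp4 (by norm_num)
    interval_cases p <;> omega

theorem changes_asym {δ : ℝ} (hδ : 0 < δ) :
    ∃ c : ℝ, 0 < c ∧ ∃ n₀ : ℕ, ∀ n : ℕ, n₀ ≤ n → n.Prime → ∀ (k r : ℕ) (x z : ℤ),
      x ∣ Rep n → (10 : ℝ) ^ (δ * n) ≤ |(x : ℝ)| → x ∣ z → ¬ Rep n ∣ z →
      1 ≤ r → r < n → FewChanges 10 r k z → c * Real.log n < k := by
  obtain ⟨c, hc, n₀, h⟩ :=
    Pool.Agent.Helper53.GD.repunit_asym_changes (b := 10) (by norm_num) nonpower_ten hδ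
  refine ⟨c, hc, n₀, ?_⟩
  intro n hn0 hn k r x z hx hxδ hxz hnot hr hrn hz
  exact h n hn0 hn k r x z hx (by push_cast; exact hxδ) hxz hnot hr hrn hz

theorem result :
    -- common divisors with sparse integers
    (∀ (n k H N : ℕ) (z : ℤ), 1 ≤ n → 1 ≤ N → (∀ p : ℕ, p.Prime → p ∣ n → N ^ (k - 1) < p) →
      Few 10 k H z → ¬ Rep n ∣ z →
      Int.gcd z (Rep n) ≤ (k * H * 10) ^ (N ^ (k - 1)) * 10 ^ (2 * n / N)) ∧
    -- common divisors with integers whose digits are periodic up to few exceptions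
    (∀ (n k r N : ℕ) (z : ℤ), n.Prime → n ≠ 3 → 1 ≤ N → 1 ≤ r → r < n →
      N ^ (k + min k r - 1) < n → FewChanges 10 r k z → ¬ Rep n ∣ z →
      Int.gcd z (Rep n) ≤ ((k + min k r) * 90) ^ (N ^ (k + min k r - 1)) * 10 ^ (2 * n / N)) ∧
    -- multiples of large divisors: number of terms
    (∀ (H : ℕ) (δ : ℝ), 0 < δ → ∃ c : ℝ, 0 < c ∧ ∃ n₀ : ℕ, ∀ n : ℕ, n₀ ≤ n →
      ∀ (k : ℕ) (x z : ℤ), x ∣ Rep n → (10 : ℝ) ^ (δ * n) ≤ |(x : ℝ)| → x ∣ z → ¬ Rep n ∣ z →
      Few 10 k H z → c * Real.log n.minFac < k) ∧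
    -- multiples of large divisors: number of changes of digits
    (∀ δ : ℝ, 0 < δ → ∃ c : ℝ, 0 < c ∧ ∃ n₀ : ℕ, ∀ n : ℕ, n₀ ≤ n → n.Prime →
      ∀ (k r : ℕ) (x z : ℤ), x ∣ Rep n → (10 : ℝ) ^ (δ * n) ≤ |(x : ℝ)| → x ∣ z → ¬ Rep n ∣ z →
      1 ≤ r → r < n → FewChanges 10 r k z → c * Real.log n < k) ∧
    -- factorizations
    (∃ c : ℝ, 0 < c ∧ ∃ n₀ : ℕ, ∀ n : ℕ, n₀ ≤ n → n.Prime → ∀ x y : ℤ, 1 < y → y ≤ x →
      x * y = Rep n → ∀ (k r : ℕ) (z : ℤ), x ∣ z → ¬ Rep n ∣ z →
      1 ≤ r → r < n → FewChanges 10 r k z → c * Real.log n < k) := by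
  refine ⟨?_, ?_, ?_, fun δ hδ => changes_asym hδ, ?_⟩
  · intro n k H N z hn hN hrough hz hnot
    exact Pool.Agent.Helper53.GD.repunit_few (b := 10) (by norm_num) nonpower_ten hn hN hrough hz hnot
  · intro n k r N z hn hn3 hN hr hrn hNn hz hnot
    have hnb : ¬ n ∣ 10 - 1 := by
      intro h
      have h9 : n ∣ 3 ^ 2 := by simpa using h
      have h3 := hn.dvd_of_dvd_pow h9
      exact hn3 ((Nat.prime_dvd_prime_iff_eq hn Nat.prime_three).1 h3)
    have h := Pool.Agent.Helper53.GD.repunit_changes (b := 10) (n := n) (k := k) (N := N)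
      (by norm_num) nonpower_ten hn hnb hN hr hrn hNn (z := z) hz hnot
    have e : (k + min k r) * (10 - 1) * 10 = (k + min k r) * 90 := by ring
    rw [e] at h
    exact h
  · intro H δ hδ
    exact Pool.Agent.Helper53.GD.repunit_asym (b := 10) (H := H) (by norm_num) nonpower_ten hδ
  · obtain ⟨c, hc, n₀, h⟩ := changes_asym (by norm_num : (0 : ℝ) < 1 / 4)
    refine ⟨c, hc, n₀, ?_⟩
    intro n hn0 hn x y hy hyx hxy k r z hxz hnot hr hrn hz
    refine h n hn0 hn k r x z ⟨y, hxy.symm⟩ ?_ hxz hnot hr hrn hz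
    have hx : 1 < x := lt_of_lt_of_le hy hyx
    have hn2 := hn.two_le
    have hlow : (10 : ℤ) ^ (n - 1) ≤ Rep n := by
      unfold Rep
      have hmem : n - 1 ∈ Finset.range n := Finset.mem_range.2 (by omega)
      exact Finset.single_le_sum (f := fun i => (10 : ℤ) ^ i) (fun i _ => by positivity) hmem
    have h1 : (10 : ℤ) ^ (n - 1) ≤ x ^ 2 := by nlinarith
    have h2 : (10 : ℤ) ^ n ≤ x ^ 4 := by
      calc (10 : ℤ) ^ n ≤ 10 ^ (2 * (n - 1)) := pow_le_pow_right₀ (by norm_num) (by omega)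
        _ = (10 ^ (n - 1)) ^ 2 := by rw [mul_comm, pow_mul]
        _ ≤ (x ^ 2) ^ 2 := pow_le_pow_left₀ (by positivity) h1 2
        _ = x ^ 4 := by ring
    have h3 : (10 : ℝ) ^ n ≤ (x : ℝ) ^ 4 := by exact_mod_cast h2
    have hx0 : (0 : ℝ) < x := by exact_mod_cast (by linarith : (0 : ℤ) < x)
    rw [abs_of_pos hx0]
    have h4 : ((10 : ℝ) ^ (1 / 4 * (n : ℝ))) ^ 4 ≤ (x : ℝ) ^ 4 := by
      rw [← Real.rpow_natCast, ← Real.rpow_mul (by norm_num)]
      have e3 : 1 / 4 * (n : ℝ) * ((4 : ℕ) : ℝ) = n := by push_cast; ring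
      rw [e3, Real.rpow_natCast]
      exact h3
    exact (pow_le_pow_iff_left₀ (by positivity) hx0.le (by norm_num)).1 h4

end Pool.Agent.Helper53.GD.RepunitSparse
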